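import Pool.Agent.H699.T.Bnd

/-!
# The bounded theorem from correctness and query complexity
-/

set_option autoImplicit false

namespace Pool.Agent.H996.T.BND

open Finset Classical
open Pool.Agent.H699.T

theorem pr_equiv {Ω Ω' : Type} [Fintype Ω] [Fintype Ω'] (e : Ω' ≃ Ω) (P : Ω → Prop) :
    pr (fun s => P (e s)) = pr P := by
  unfold pr ex
  rw [Fintype.card_congr e]
  have h : ∑ s, (if P (e s) then (1 : ℝ) else 0) = ∑ ω, (if P ω then (1 : ℝ) else 0) :=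
    Equiv.sum_comp e (fun ω => if P ω then (1 : ℝ) else 0)
  rw [h]

theorem frac_le (η K : ℝ) (x : ℕ) (hη : 0 < η) (hK : 0 ≤ K) (hx : 8 * (K + 1) / η ≤ x) (y : ℝ)
    (hy : 0 ≤ y) : (2 * y / x) * (K * y) ≤ η / 4 * y ^ 2 := by
  have hx0 : (0 : ℝ) < x := lt_of_lt_of_le (by positivity) hx
  have h1 : 8 * (K + 1) ≤ x * η := by
    rwa [div_le_iff₀ hη] at hx
  have h2 : 2 * K / x ≤ η / 4 := by
    rw [div_le_iff₀ hx0]
    nlinarith
  have h3 : (2 * y / x) * (K * y) = (2 * K / x) * y ^ 2 := by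
    ring
  rw [h3]
  exact mul_le_mul_of_nonneg_right h2 (sq_nonneg y)

theorem t_BND : S_EXBASIC → S_LOUT → S_CORR → S_BND := by
  intro _ hL hC
  refine ⟨1 / 560, by norm_num, by norm_num, ?_⟩
  intro k ε η pf hε hη hpf
  obtain ⟨q, L, Δ, hq1, hqm, hC1⟩ := hC k ⌈8 * ((1 : ℝ) + 1) / η⌉₊ ε pf hε hpf
  obtain ⟨Ke, hL1⟩ := hL k L Δ
  obtain ⟨t, b, Δ2, Q, ht1, hb1, hbm, hQ1, hC2⟩ := hC1 (⌈8 * ((Ke : ℝ) + 1) / η⌉₊ + 1)
    ⌈8 * ((1 : ℝ) + 1) / η⌉₊ (Nat.le_add_left _ _)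
  obtain ⟨K3, hL2⟩ := hL1 Δ2 Q
  obtain ⟨N0, hC3⟩ := hC2 (⌈8 * ((K3 : ℝ) + 1) / η⌉₊ + 1) (Nat.le_add_left _ _)
  refine ⟨N0, fun N hN => ?_⟩
  generalize ha : ⌈8 * ((Ke : ℝ) + 1) / η⌉₊ + 1 = a at *
  generalize hg : ⌈8 * ((K3 : ℝ) + 1) / η⌉₊ + 1 = g at *
  have hqr : 8 * ((1 : ℝ) + 1) / η ≤ q := (Nat.le_ceil _).trans (by exact_mod_cast hqm)
  have hbr : 8 * ((1 : ℝ) + 1) / η ≤ b := (Nat.le_ceil _).trans (by exact_mod_cast hbm)
  have har : 8 * ((Ke : ℝ) + 1) / η ≤ a := by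
    rw [← ha]
    push_cast
    exact (Nat.le_ceil _).trans (by linarith)
  have hgr : 8 * ((K3 : ℝ) + 1) / η ≤ g := by
    rw [← hg]
    push_cast
    exact (Nat.le_ceil _).trans (by linarith)
  have ha1 : 1 ≤ a := by omega
  have hg1 : 1 ≤ g := by omega
  have hne : Nonempty (Om N q a t b Q g) :=
    ⟨(fun _ => ⟨0, hq1⟩, (fun _ => ⟨0, ha1⟩, fun _ => ⟨0, ht1⟩, fun _ => ⟨0, hb1⟩),
      fun _ => ⟨0, hQ1⟩, fun _ => ⟨0, hg1⟩)⟩
  have hP : ∀ ω : Om N q a t b Q g, ∃ P : DT (Fin N) ℕ ℝ, ∀ d, IMet k d →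
      P.eval d = outB k L Δ Δ2 (ε / 16 * N) ω d ∧ (P.cost d : ℝ) ≤ η * N ^ 2 := by
    intro ω
    obtain ⟨c, hc, P, hP⟩ := hL2 N q a t b g (ε / 16 * N) ω
    refine ⟨P, fun d hd => ⟨(hP d hd).1, ?_⟩⟩
    have h1 : (P.cost d : ℝ) ≤ c := by exact_mod_cast (hP d hd).2
    have hN0 : (0 : ℝ) ≤ N := Nat.cast_nonneg N
    have e1 := frac_le η 1 q hη (by norm_num) hqr N hN0
    have e2 := frac_le η Ke a hη (Nat.cast_nonneg _) har N hN0
    have e3 := frac_le η 1 b hη (by norm_num) hbr N hN0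
    have e4 := frac_le η K3 g hη (Nat.cast_nonneg _) hgr N hN0
    rw [one_mul] at e1 e3
    linarith
  choose P hP using hP
  refine ⟨Fintype.card (Om N q a t b Q g), Fintype.card_pos, fun s => P ((Fintype.equivFin _).symm s),
    fun s d hd => (hP _ d hd).2, fun d hd => ?_⟩
  have h1 := hC3 N hN d hd
  have h2 : pr (fun s : Fin (Fintype.card (Om N q a t b Q g)) =>
      ¬ (tspI d ≤ outB k L Δ Δ2 (ε / 16 * N) ((Fintype.equivFin _).symm s) d ∧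
        outB k L Δ Δ2 (ε / 16 * N) ((Fintype.equivFin _).symm s) d ≤
          (2 - 1 / 560) * tspI d + ε * N)) ≤ pf := by
    rw [pr_equiv (Fintype.equivFin (Om N q a t b Q g)).symm
      (fun ω => ¬ (tspI d ≤ outB k L Δ Δ2 (ε / 16 * N) ω d ∧
        outB k L Δ Δ2 (ε / 16 * N) ω d ≤ (2 - 1 / 560) * tspI d + ε * N))]
    exact h1
  have h3 : (fun s : Fin (Fintype.card (Om N q a t b Q g)) =>
      ¬ (tspI d ≤ (P ((Fintype.equivFin _).symm s)).eval d ∧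
        (P ((Fintype.equivFin _).symm s)).eval d ≤ (2 - 1 / 560) * tspI d + ε * N)) =
      fun s => ¬ (tspI d ≤ outB k L Δ Δ2 (ε / 16 * N) ((Fintype.equivFin _).symm s) d ∧
        outB k L Δ Δ2 (ε / 16 * N) ((Fintype.equivFin _).symm s) d ≤
          (2 - 1 / 560) * tspI d + ε * N) := by
    funext s
    rw [(hP ((Fintype.equivFin _).symm s) d hd).1]
  rw [h3]
  exact h2

end Pool.Agent.H996.T.BND
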