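import Pool.Agent.H699.T.Unit

/-!
# Colour conflicts and heavy units
-/

set_option autoImplicit false

namespace Pool.Agent.H729.T.COL

open Finset Classical Pool.Agent.H699.T

/-- Resampling one coordinate. -/
lemma resample {N Q : ℕ} (v : Fin N) (g : (Fin N → Fin Q) → ℝ) :
    ∑ χ : Fin N → Fin Q, ∑ t : Fin Q, g (Function.update χ v t) = Q * ∑ χ, g χ := by
  have h1 : ∑ χ : Fin N → Fin Q, ∑ t : Fin Q, g (Function.update χ v t) =
      ∑ p : (Fin N → Fin Q) × Fin Q, g (Function.update p.1 v p.2) := by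
    rw [Fintype.sum_prod_type]
  have h2 : ∑ p : (Fin N → Fin Q) × Fin Q, g (Function.update p.1 v p.2) =
      ∑ p : (Fin N → Fin Q) × Fin Q, g p.1 := by
    have inv : Function.Involutive
        (fun p : (Fin N → Fin Q) × Fin Q => (Function.update p.1 v p.2, p.1 v)) := by
      intro p
      simp
    exact Fintype.sum_equiv (Function.Involutive.toPerm _ inv) _ _ (fun p => rfl)
  rw [h1, h2, Fintype.sum_prod_type]
  simp [Finset.mul_sum]

/-- Two coordinates agree with probability `1/Q`. -/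
lemma ex_agree {N Q : ℕ} (hQ : 1 ≤ Q) {u v : Fin N} (huv : u ≠ v) :
    ex (fun χ : Fin N → Fin Q => if χ u = χ v then (1 : ℝ) else 0) = 1 / Q := by
  have hQ0 : (Q : ℝ) ≠ 0 := by
    have : 0 < Q := hQ
    positivity
  have h := resample v (fun χ : Fin N → Fin Q => if χ u = χ v then (1 : ℝ) else 0)
  have h2 : ∑ χ : Fin N → Fin Q, ∑ t : Fin Q,
      (if (Function.update χ v t) u = (Function.update χ v t) v then (1 : ℝ) else 0) =
      Fintype.card (Fin N → Fin Q) := by
    have : ∀ χ : Fin N → Fin Q, ∑ t : Fin Q,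
      (if (Function.update χ v t) u = (Function.update χ v t) v then (1 : ℝ) else 0) = 1 := by
      intro χ
      simp only [Function.update_self, Function.update_of_ne huv]
      simp
    simp only [this]
    simp
  rw [h2] at h
  have hc : (Fintype.card (Fin N → Fin Q) : ℝ) ≠ 0 := by
    rw [Fintype.card_fun, Fintype.card_fin, Fintype.card_fin]
    have : 0 < Q := hQ
    positivity
  have hS : (∑ χ : Fin N → Fin Q, if χ u = χ v then (1 : ℝ) else 0) ≠ 0 := by
    intro h0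
    rw [h0, mul_zero] at h
    exact hc h
  unfold ex
  rw [h, div_eq_div_iff (mul_ne_zero hQ0 hS) hQ0]
  ring

/-- Light units have few neighbours. -/
lemma card_nbr (hU : S_USB) {N : ℕ} {s : US N} {k M Kp : ℕ} (hs : s.Ok k M Kp)
    (c1 c2 : Fin N → ℕ) (Δ2 : ℕ) (l : Fin N) : (s.nbr c1 c2 Δ2 l).card ≤ Δ2 := by
  by_cases hl : s.light c1 c2 Δ2 l
  · obtain ⟨-, hU2, -⟩ := hU N s k M Kp hs
    have hsub : s.nbr c1 c2 Δ2 l ⊆
        ((s.un l).biUnion fun x => Cd s.d c1 c2 x).image s.top := by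
      intro l' hl'
      unfold US.nbr at hl'
      rw [mem_filter] at hl'
      obtain ⟨-, -, h1, h2, x, hx, y, hy, hxy⟩ := hl'
      rw [mem_image]
      have hyt : s.top y = l' := by
        unfold US.un at hy
        exact (mem_filter.1 hy).2
      refine ⟨y, ?_, hyt⟩
      rw [mem_biUnion]
      refine ⟨x, hx, ?_⟩
      have a1 := (hU2 _ l h1.2.1).2.1 x hx
      have a2 := (hU2 _ l' h2.2.1).2.1 y hy
      unfold Cd
      rw [mem_filter]
      rw [hs.symm x y] at hxy
      refine ⟨mem_univ _, ?_, ?_, ?_⟩ <;> omega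
    calc (s.nbr c1 c2 Δ2 l).card ≤ _ := card_le_card hsub
      _ ≤ _ := card_image_le
      _ ≤ _ := card_biUnion_le
      _ ≤ Δ2 := hl.2.2
  · have : s.nbr c1 c2 Δ2 l = ∅ := by
      unfold US.nbr
      rw [filter_eq_empty_iff]
      intro l' _ h
      exact hl h.2.1
    rw [this, card_empty]
    exact Nat.zero_le _

theorem t_COL : S_EXBASIC → S_USB → S_COL := by
  intro hE hU N s k M Kp hs c1 c2 Δ2 Q hQ
  obtain ⟨e1, e2, -, -, e5, -⟩ := hE
  have hQ0 : (0 : ℝ) < Q := by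
    have : 0 < Q := hQ
    positivity
  constructor
  · have hpt : ∀ χ : Fin N → Fin Q, ((univ.filter fun l => s.light c1 c2 Δ2 l ∧
        s.conf c1 c2 Δ2 χ l).card : ℝ) ≤
        ∑ l : Fin N, (∑ l' ∈ s.nbr c1 c2 Δ2 l, (if χ l' = χ l then (1 : ℝ) else 0) +
          ∑ p ∈ (s.nbr c1 c2 Δ2 l).offDiag, (if χ p.1 = χ p.2 then (1 : ℝ) else 0)) := by
      intro χ
      rw [card_filter, Nat.cast_sum]
      refine sum_le_sum fun l _ => ?_
      have n1 : ∀ l' ∈ s.nbr c1 c2 Δ2 l, (0 : ℝ) ≤ (if χ l' = χ l then (1 : ℝ) else 0) := by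
        intro l' _
        split_ifs <;> norm_num
      have n2 : ∀ p ∈ (s.nbr c1 c2 Δ2 l).offDiag,
          (0 : ℝ) ≤ (if χ p.1 = χ p.2 then (1 : ℝ) else 0) := by
        intro l' _
        split_ifs <;> norm_num
      have m1 := sum_nonneg n1
      have m2 := sum_nonneg n2
      split_ifs with h
      · rcases h.2 with ⟨l', h1, h2⟩ | ⟨l', h1, l'', h2, h3, h4⟩
        · have := single_le_sum n1 h1
          rw [if_pos h2] at this
          push_cast
          linarith
        · have := single_le_sum n2 (mem_offDiag.2 ⟨h1, h2, h3⟩ : (l', l'') ∈ _)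
          rw [if_pos h4] at this
          push_cast
          linarith
      · push_cast
        linarith
    refine (e1 _ _ _ hpt).trans ?_
    rw [e5]
    have hl : ∀ l : Fin N, ex (fun χ : Fin N → Fin Q =>
        (∑ l' ∈ s.nbr c1 c2 Δ2 l, (if χ l' = χ l then (1 : ℝ) else 0) +
          ∑ p ∈ (s.nbr c1 c2 Δ2 l).offDiag, (if χ p.1 = χ p.2 then (1 : ℝ) else 0))) ≤
        ((Δ2 : ℝ) + 1) ^ 2 / Q := by
      intro l
      rw [e2, e5, e5]
      have s1 : ∑ l' ∈ s.nbr c1 c2 Δ2 l,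
          ex (fun χ : Fin N → Fin Q => if χ l' = χ l then (1 : ℝ) else 0) =
          ∑ l' ∈ s.nbr c1 c2 Δ2 l, 1 / (Q : ℝ) := by
        refine sum_congr rfl fun l' hl' => ?_
        unfold US.nbr at hl'
        exact ex_agree hQ (mem_filter.1 hl').2.1
      have s2 : ∑ p ∈ (s.nbr c1 c2 Δ2 l).offDiag,
          ex (fun χ : Fin N → Fin Q => if χ p.1 = χ p.2 then (1 : ℝ) else 0) =
          ∑ p ∈ (s.nbr c1 c2 Δ2 l).offDiag, 1 / (Q : ℝ) := by
        refine sum_congr rfl fun p hp => ?_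
        exact ex_agree hQ (mem_offDiag.1 hp).2.2
      rw [s1, s2, sum_const, sum_const, offDiag_card, nsmul_eq_mul, nsmul_eq_mul]
      have hc := card_nbr hU hs c1 c2 Δ2 l
      have hc' : ((s.nbr c1 c2 Δ2 l).card : ℝ) ≤ Δ2 := by exact_mod_cast hc
      have hcc : (((s.nbr c1 c2 Δ2 l).card * (s.nbr c1 c2 Δ2 l).card -
          (s.nbr c1 c2 Δ2 l).card : ℕ) : ℝ) ≤ (Δ2 : ℝ) * Δ2 := by
        have : (s.nbr c1 c2 Δ2 l).card * (s.nbr c1 c2 Δ2 l).card -
          (s.nbr c1 c2 Δ2 l).card ≤ Δ2 * Δ2 := (Nat.sub_le _ _).trans (Nat.mul_le_mul hc hc)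
        exact_mod_cast this
      rw [← add_mul, mul_one_div]
      refine div_le_div_of_nonneg_right ?_ hQ0.le
      nlinarith [Nat.cast_nonneg (α := ℝ) Δ2]
    calc _ ≤ ∑ l : Fin N, ((Δ2 : ℝ) + 1) ^ 2 / Q := sum_le_sum fun l _ => hl l
      _ = N * (Δ2 + 1) ^ 2 / Q := by
        rw [sum_const, card_univ, Fintype.card_fin, nsmul_eq_mul, mul_div_assoc]
  · set H := univ.filter fun l => (s.un l).Nonempty ∧ ¬ s.anch (fun y => min (c1 y) (c2 y)) l ∧
      ¬ s.light c1 c2 Δ2 l with hH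
    have h1 : H.card * Δ2 ≤ ∑ y, (Cd s.d c1 c2 y).card := by
      calc H.card * Δ2 = ∑ l ∈ H, Δ2 := by rw [sum_const, smul_eq_mul]
        _ ≤ ∑ l ∈ H, ∑ y ∈ s.un l, (Cd s.d c1 c2 y).card := by
          refine sum_le_sum fun l hl => ?_
          rw [hH, mem_filter] at hl
          obtain ⟨-, a, b, c⟩ := hl
          by_contra h
          exact c ⟨a, b, (not_le.1 h).le⟩
        _ ≤ ∑ l, ∑ y ∈ s.un l, (Cd s.d c1 c2 y).card :=
          sum_le_sum_of_subset (subset_univ _)
        _ = ∑ y ∈ s.V0, (Cd s.d c1 c2 y).card := by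
          unfold US.un
          exact sum_fiberwise _ _ _
        _ ≤ _ := sum_le_sum_of_subset (subset_univ _)
    have h2 : ((H.card * Δ2 : ℕ) : ℝ) ≤ ((∑ y, (Cd s.d c1 c2 y).card : ℕ) : ℝ) := by
      exact_mod_cast h1
    push_cast at h2
    exact h2

end Pool.Agent.H729.T.COL
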