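import Pool.Agent.H699.T.Dec

/-! Deterministic analysis of the decomposition (project TSP of helper699). -/

set_option autoImplicit false

namespace Pool.Agent.H914.T.DINEQ

open Finset
open Pool.Agent.H699.T

section inst

lemma filt_any {α : Type} (s : Finset α) (p : α → Prop) (i1 i2 : DecidablePred p) (x : α) :
    x ∈ @Finset.filter α p i1 s ↔ x ∈ @Finset.filter α p i2 s := by
  rw [Subsingleton.elim i1 i2]

lemma image_any {α β : Type} (f : α → β) (s : Finset α) (i1 i2 : DecidableEq β) :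
    @Finset.image α β i1 f s = @Finset.image α β i2 f s := by
  rw [Subsingleton.elim i1 i2]

lemma toF_univ {n : ℕ} (i : DecidableEq (Fin n)) (l : List (Fin n)) (h : ∀ x, x ∈ l) :
    @List.toFinset (Fin n) i l = Finset.univ := by
  have e : i = instDecidableEqFin n := Subsingleton.elim _ _
  subst e
  ext x
  rw [List.mem_toFinset]
  exact ⟨fun _ => Finset.mem_univ _, fun _ => h x⟩

lemma toF_mem {n : ℕ} (i : DecidableEq (Fin n)) (l : List (Fin n))
    (h : @List.toFinset (Fin n) i l = Finset.univ) (x : Fin n) : x ∈ l := by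
  have e : i = instDecidableEqFin n := Subsingleton.elim _ _
  subst e
  rw [← List.mem_toFinset, h]
  exact Finset.mem_univ _

end inst

section cycl

variable {α : Type}

lemma walk_mono {d d' : α → α → ℝ} (h : ∀ x y, d x y ≤ d' x y) : ∀ l : List α,
    walk d l ≤ walk d' l
  | [] => le_rfl
  | [_] => le_rfl
  | a :: b :: l => by
    simp only [walk]
    exact add_le_add (h a b) (walk_mono h (b :: l))

lemma cyc_mono {d d' : α → α → ℝ} (h : ∀ x y, d x y ≤ d' x y) (l : List α) :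
    cyc d l ≤ cyc d' l := by
  cases l with
  | nil => exact le_rfl
  | cons a l => exact walk_mono h _

lemma walk_zero : ∀ l : List α, walk (fun _ _ => (0 : ℝ)) l = 0
  | [] => rfl
  | [_] => rfl
  | a :: b :: l => by
    simp only [walk]
    rw [walk_zero (b :: l), add_zero]

lemma walk_add (d d' : α → α → ℝ) : ∀ l : List α,
    walk (fun x y => d x y + d' x y) l = walk d l + walk d' l
  | [] => by simp [walk]
  | [_] => by simp [walk]
  | a :: b :: l => by
    simp only [walk]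
    rw [walk_add d d' (b :: l)]
    ring

lemma cyc_zero (l : List α) : cyc (fun _ _ => (0 : ℝ)) l = 0 := by
  cases l with
  | nil => rfl
  | cons a l => exact walk_zero _

lemma cyc_add (d d' : α → α → ℝ) (l : List α) :
    cyc (fun x y => d x y + d' x y) l = cyc d l + cyc d' l := by
  cases l with
  | nil => simp [cyc]
  | cons a l => exact walk_add _ _ _

lemma cyc_sum {ι : Type} (C : Finset ι) (g : ι → α → α → ℝ) (l : List α) :
    cyc (fun x y => ∑ c ∈ C, g c x y) l = ∑ c ∈ C, cyc (g c) l := by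
  classical
  induction C using Finset.induction_on with
  | empty =>
    simp only [Finset.sum_empty]
    exact cyc_zero l
  | insert a C ha ih =>
    have h : (fun x y => ∑ c ∈ insert a C, g c x y) =
        fun x y => g a x y + ∑ c ∈ C, g c x y := by
      funext x y
      rw [Finset.sum_insert ha]
    rw [h, cyc_add (g a) (fun x y => ∑ c ∈ C, g c x y), ih, Finset.sum_insert ha]

lemma cyc_nonneg {d : α → α → ℝ} (h : ∀ x y, 0 ≤ d x y) (l : List α) : 0 ≤ cyc d l := by
  have := cyc_mono (d := fun _ _ => (0 : ℝ)) (d' := d) h l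
  rwa [cyc_zero] at this

lemma ccnt_le {ι : Type} (C : Finset ι) (P : α → α → Prop) (Q : ι → α → α → Prop)
    (h : ∀ x y, P x y → ∃ c ∈ C, Q c x y) (l : List α) :
    ccnt P l ≤ ∑ c ∈ C, ccnt (Q c) l := by
  unfold ccnt
  rw [← cyc_sum]
  refine cyc_mono (fun x y => ?_) l
  have hnn : ∀ c ∈ C, (0 : ℝ) ≤ @ite ℝ (Q c x y) (Classical.propDecidable _) 1 0 := by
    intro c _
    split_ifs <;> norm_num
  by_cases hP : P x y
  · rw [if_pos hP]
    obtain ⟨c, hc, hPc⟩ := h x y hP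
    refine le_trans ?_ (Finset.single_le_sum hnn hc)
    rw [if_pos hPc]
  · rw [if_neg hP]
    exact Finset.sum_nonneg hnn

end cycl

lemma d_nonneg {n : ℕ} {d : Fin n → Fin n → ℝ} (hd : RMet d) (x y : Fin n) : 0 ≤ d x y := by
  by_cases h : x = y
  · rw [h, hd.met.self]
  · exact (hd.pos x y h).le

lemma tsp_nonneg {n : ℕ} {d : Fin n → Fin n → ℝ} (hd : RMet d) (S : Finset (Fin n)) :
    0 ≤ tsp d S := by
  unfold tsp
  apply Real.sInf_nonneg
  rintro c ⟨l, _, rfl⟩
  exact cyc_nonneg (d_nonneg hd) l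

lemma arith {δ0 η1 b T A B S N ρ ε2 V : ℝ} (h0 : 0 < δ0) (h1 : δ0 < 1)
    (hb : b ≤ 2 - δ0) (hA : 0 ≤ A) (hSB : S ≤ B) (hAB : A + B ≤ T + δ0 / 8 * T)
    (hT : 0 ≤ T) (hε : ε2 = δ0 * η1 / 24) (hρ : η1 * (N * ρ) ≤ T)
    (hV : V ≤ b * A + ((2 - δ0) * S + 3 * N * (ε2 * ρ))) :
    V ≤ (2 - δ0 / 2) * T := by
  have e1 : b * A ≤ (2 - δ0) * A := mul_le_mul_of_nonneg_right hb hA
  have e2 : (2 - δ0) * S ≤ (2 - δ0) * B := mul_le_mul_of_nonneg_left hSB (by linarith)
  have e3 : 3 * N * (ε2 * ρ) ≤ δ0 / 8 * T := by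
    have : 3 * N * (ε2 * ρ) = δ0 / 8 * (η1 * (N * ρ)) := by rw [hε]; ring
    rw [this]
    exact mul_le_mul_of_nonneg_left hρ (by linarith)
  have e4 : (2 - δ0) * (A + B) ≤ (2 - δ0) * (T + δ0 / 8 * T) :=
    mul_le_mul_of_nonneg_left hAB (by linarith)
  have e5 : (2 - δ0) * (T + δ0 / 8 * T) + δ0 / 8 * T ≤ (2 - δ0 / 2) * T := by
    have : (2 - δ0 / 2) * T - ((2 - δ0) * (T + δ0 / 8 * T) + δ0 / 8 * T) =
      (δ0 / 8 + δ0 ^ 2 / 8) * T := by ring
    have h2 : 0 ≤ (δ0 / 8 + δ0 ^ 2 / 8) * T := by positivity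
    linarith
  nlinarith

theorem t_DINEQ : S_TSPLE → S_TSPATT → S_NET → S_D1 → S_D2 → S_COLL → S_AVG → S_TSPN →
    S_DINEQ := by
  intro hLE hATT hNET hD1 hD2 hCOLL hAVG hTSPN δ0 η1 θ hδ0 hδ1 hη1 hθ hθ1
  set K0 : ℝ := max 4 (4 / (1 - δ0)) with hK0
  have hK4 : 4 ≤ K0 := le_max_left _ _
  have hK0pos : 0 < K0 := by linarith
  have hb : 1 + 4 / K0 ≤ 2 - δ0 := by
    have h1 : 4 / (1 - δ0) ≤ K0 := le_max_right _ _
    have h2 : 0 < 1 - δ0 := by linarith
    rw [div_le_iff₀ h2] at h1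
    have h3 : 4 / K0 ≤ 1 - δ0 := by
      rw [div_le_iff₀ hK0pos]
      linarith
    linarith
  set h0 : ℕ := ⌊1 / θ⌋₊ + 1 with hh0
  have hh01 : 1 ≤ h0 := by omega
  set K1 : ℕ := ⌈2 * K0 + 2⌉₊ with hK1
  have hK1r : 2 * K0 + 2 ≤ K1 := Nat.le_ceil _
  have hK1pos : 1 ≤ K1 := by
    have : (1 : ℝ) ≤ K1 := by linarith
    exact_mod_cast this
  obtain ⟨KJ, hKJ, hAv⟩ := hAVG h0 K1 η1 (δ0 / 8) hh01 hK1pos hη1 (by linarith)
  set ε2 : ℝ := δ0 * η1 / 24 with hε2
  have hε2pos : 0 < ε2 := by positivity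
  have hKJ1 : (1 : ℝ) ≤ KJ := by exact_mod_cast hK1pos.trans hKJ
  have hh0r : (1 : ℝ) ≤ h0 := by exact_mod_cast hh01
  refine ⟨K0, K1, KJ, 2 * h0 * KJ / ε2, ε2, hK4, hKJ, by positivity, hε2pos, ?_⟩
  intro n _ d hd m hm2 hmn hmη
  obtain ⟨-, hρ, -, -, hmT⟩ := hNET n d hd m hm2 hmn
  obtain ⟨-, hdt1, hdt2, -, hcard, hdense⟩ := hD1 n d hd m K0 θ hm2 hmn hK4 hθ
  set ρ : ℝ := rad d m with hρdef
  set C : Finset (Fin n) := cen d m K0 θ with hC
  have hCcard : C.card ≤ h0 := by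
    have h1 : (C.card : ℝ) ≤ 1 / θ := by rw [le_div_iff₀ hθ]; exact hcard
    have h2 : 1 / θ < (h0 : ℝ) := by rw [hh0]; push_cast; exact Nat.lt_floor_add_one _
    have h3 : (C.card : ℝ) < h0 := lt_of_le_of_lt h1 h2
    exact_mod_cast h3.le
  have hCr : (C.card : ℝ) ≤ h0 := by exact_mod_cast hCcard
  have hT0 : 0 ≤ tsp d univ := tsp_nonneg hd _
  -- properties at a fixed radius
  have hrad : ∀ i : ℕ, 0 ≤ (i : ℝ) * ρ := fun i => mul_nonneg (Nat.cast_nonneg i) hρ.le
  have key : ∀ i : ℕ,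
      (∀ y, fr d C (i * ρ) (fr d C (i * ρ) y) = fr d C (i * ρ) y) ∧
      (∀ y, y ∈ ball d C (i * ρ) → fr d C (i * ρ) y ∈ C) ∧
      (∀ y, y ∉ ball d C (i * ρ) → fr d C (i * ρ) y = y) ∧
      (∀ x y, fr d C (i * ρ) x = fr d C (i * ρ) y → x ≠ y → x ∈ ball d C (i * ρ) ∧
        y ∈ ball d C (i * ρ) ∧ d x y ≤ 2 * C.card * (i * ρ)) ∧
      (∀ x y, fr d C (i * ρ) x ≠ fr d C (i * ρ) y → x ∈ ball d C (i * ρ) →
        ∃ c ∈ C, d c x ≤ i * ρ ∧ i * ρ < d c y) := by
    intro i
    obtain ⟨a1, a2, a3, a4, a5, -⟩ := hD2 n d hd C (i * ρ) (hrad i)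
    exact ⟨a1, a2, a3, a4, a5⟩
  have hdiam : ∀ (i : ℕ) (x y : Fin n), fr d C (i * ρ) x = fr d C (i * ρ) y →
      d x y ≤ 2 * h0 * (i * ρ) := by
    intro i x y hxy
    by_cases h : x = y
    · rw [h, hd.met.self]
      have := hrad i
      positivity
    · refine ((key i).2.2.2.1 x y hxy h).2.2.trans ?_
      apply mul_le_mul_of_nonneg_right _ (hrad i)
      linarith
  have hfib : ∀ (i : ℕ) (c : Fin n) (inst : DecidablePred fun x => fr d C (i * ρ) x = c),
      @Finset.filter (Fin n) (fun x => fr d C (i * ρ) x = c) inst univ = fib d m K0 θ i c := by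
    intro i c inst
    ext x
    unfold fib
    exact filt_any _ _ _ _ _
  have himg : ∀ (i : ℕ) (inst : DecidableEq (Fin n)),
      @Finset.image (Fin n) (Fin n) inst (fr d C (i * ρ)) univ = img d m K0 θ i := by
    intro i inst
    unfold img
    exact image_any _ _ _ _
  have mem_fib : ∀ (i : ℕ) (c x : Fin n), x ∈ fib d m K0 θ i c ↔ fr d C (i * ρ) x = c := by
    intro i c x
    unfold fib
    rw [Finset.mem_filter]
    exact ⟨fun h => h.2, fun h => ⟨Finset.mem_univ _, h⟩⟩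
  have mem_img : ∀ (i : ℕ) (x : Fin n), x ∈ img d m K0 θ i ↔ ∃ z, fr d C (i * ρ) z = x := by
    intro i x
    unfold img
    rw [Finset.mem_image]
    exact ⟨fun ⟨z, _, h⟩ => ⟨z, h⟩, fun ⟨z, h⟩ => ⟨z, Finset.mem_univ _, h⟩⟩
  -- `S_COLL` at the radius number `i`
  have hColl : ∀ i : ℕ, tsp d univ ≤ tsp d (img d m K0 θ i) +
        ∑ c ∈ img d m K0 θ i, tsp d (fib d m K0 θ i c) ∧
      ∀ l : List (Fin n), l.Nodup → (∀ x, x ∈ l) →
        tsp d (img d m K0 θ i) + ∑ c ∈ img d m K0 θ i, tsp d (fib d m K0 θ i c) ≤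
          cyc d l + 3 * (2 * h0 * (i * ρ)) * ccnt (fun x y => fr d C (i * ρ) x ≠ fr d C (i * ρ) y ∧
            (x ∈ ball d C (i * ρ) ∨ y ∈ ball d C (i * ρ))) l := by
    intro i
    obtain ⟨c1, c2⟩ := hCOLL (Fin n) d hd.met (fr d C (i * ρ)) (ball d C (i * ρ))
      (2 * h0 * (i * ρ)) (key i).1 (by have := hrad i; positivity) (hdiam i)
      (fun x y hxy h => ⟨((key i).2.2.2.1 x y hxy h).1, ((key i).2.2.2.1 x y hxy h).2.1⟩)
    simp only [hfib, himg] at c1 c2
    exact ⟨c1, fun l hl hmem => c2 l hl (toF_univ _ l hmem)⟩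
  -- explicit points
  have hExpl : ∀ i : ℕ, K1 ≤ i → ∀ x ∈ img d m K0 θ i, x ∈ C ∨ ¬ Dense d m K0 θ x := by
    intro i hi x hx
    obtain ⟨z, rfl⟩ := (mem_img i x).1 hx
    by_cases hz : z ∈ ball d C (i * ρ)
    · exact Or.inl ((key i).2.1 z hz)
    · right
      rw [(key i).2.2.1 z hz]
      intro hden
      obtain ⟨c, hc, hcz⟩ := hdense z hden
      apply hz
      unfold ball
      rw [Finset.mem_filter]
      refine ⟨Finset.mem_univ _, c, hc, hcz.trans ?_⟩
      apply mul_le_mul_of_nonneg_right _ hρ.le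
      have : (K1 : ℝ) ≤ i := by exact_mod_cast hi
      linarith
  have hN : ∀ i : ℕ, K1 ≤ i → tsp d (img d m K0 θ i) ≤ tspn (dt d m K0 θ) (img d m K0 θ i) ∧
      tspn (dt d m K0 θ) (img d m K0 θ i) ≤ (1 + 4 / K0) * tsp d (img d m K0 θ i) := by
    intro i hi
    refine hTSPN n d (dt d m K0 θ) hd (img d m K0 θ i) (1 + 4 / K0) ?_ hdt1 ?_
    · have : 0 < 4 / K0 := by positivity
      linarith
    · intro x hx y hy
      exact hdt2 x y (Or.inl (hExpl i hi x hx))
  -- fibres off the centres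
  have hzero : ∀ i : ℕ, ∀ c ∈ img d m K0 θ i, c ∉ C → tsp d (fib d m K0 θ i c) ≤ 0 := by
    intro i c _ hcC
    have h1 : ∀ x ∈ fib d m K0 θ i c, x ∈ [c] := by
      intro x hx
      rw [mem_fib] at hx
      have hxb : x ∉ ball d C (i * ρ) := by
        intro hb
        apply hcC
        rw [← hx]
        exact (key i).2.1 x hb
      rw [(key i).2.2.1 x hxb] at hx
      rw [hx]
      exact List.mem_singleton_self c
    refine (hLE (Fin n) d hd.met _ [c] h1).trans ?_
    have : cyc d [c] = d c c + 0 := rfl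
    rw [this, hd.met.self, add_zero]
  refine ⟨?_, ?_⟩
  · intro i hi1 hi2 c x hx y hy
    rw [mem_fib] at hx hy
    refine (hdiam i x y (hx.trans hy.symm)).trans ?_
    have e : 2 * (h0 : ℝ) * KJ / ε2 * (ε2 * ρ) = 2 * h0 * (KJ * ρ) := by
      field_simp
    rw [e]
    apply mul_le_mul_of_nonneg_left _ (by positivity)
    apply mul_le_mul_of_nonneg_right _ hρ.le
    exact_mod_cast hi2
  · intro v hv
    constructor
    · intro i hi1 hi2
      refine (hColl i).1.trans ?_
      unfold valD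
      refine add_le_add (hN i hi1).1 ?_
      calc ∑ c ∈ img d m K0 θ i, tsp d (fib d m K0 θ i c)
          ≤ ∑ c ∈ img d m K0 θ i, (if c ∈ C then v i c else 0) := by
            refine Finset.sum_le_sum fun c hc => ?_
            split_ifs with h
            · exact (hv i hi1 hi2 c (Finset.mem_inter.2 ⟨h, hc⟩)).1
            · exact hzero i c hc h
        _ = ∑ c ∈ C ∩ img d m K0 θ i, v i c := by
            rw [← Finset.sum_filter]
            refine Finset.sum_congr ?_ fun _ _ => rfl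
            ext c
            rw [Finset.mem_filter, Finset.mem_inter, and_comm]
    · obtain ⟨l, hl1, hl2, hl3⟩ := hATT (Fin n) d hd.met univ
      have hmem : ∀ x, x ∈ l := toF_mem _ l hl2
      have hηT : η1 * (n * ρ) ≤ tsp d univ := by
        refine le_trans ?_ hmT
        rw [← mul_assoc]
        exact mul_le_mul_of_nonneg_right hmη hρ.le
      obtain ⟨i, hi1, hi2, hi3⟩ := hAv n d hd C ρ l hCcard hρ hl1
        (toF_univ _ l hmem)
        (by rw [hl3, mul_assoc]; exact hηT)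
      refine ⟨i, hi1, hi2, ?_⟩
      have hc2 := (hColl i).2 l hl1 hmem
      -- comparison of the counts
      have hcnt : ccnt (fun x y => fr d C (i * ρ) x ≠ fr d C (i * ρ) y ∧
            (x ∈ ball d C (i * ρ) ∨ y ∈ ball d C (i * ρ))) l ≤
          ∑ c ∈ C, ccnt (fun x y => (d c x ≤ i * ρ ∧ i * ρ < d c y) ∨
            (d c y ≤ i * ρ ∧ i * ρ < d c x)) l := by
        refine ccnt_le C _ (fun c x y => (d c x ≤ i * ρ ∧ i * ρ < d c y) ∨
            (d c y ≤ i * ρ ∧ i * ρ < d c x)) ?_ l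
        rintro x y ⟨hne, hx | hy⟩
        · obtain ⟨c, hc, h1, h2⟩ := (key i).2.2.2.2 x y hne hx
          exact ⟨c, hc, Or.inl ⟨h1, h2⟩⟩
        · obtain ⟨c, hc, h1, h2⟩ := (key i).2.2.2.2 y x (Ne.symm hne) hy
          exact ⟨c, hc, Or.inr ⟨h1, h2⟩⟩
      set A := tsp d (img d m K0 θ i) with hA
      set B := ∑ c ∈ img d m K0 θ i, tsp d (fib d m K0 θ i c) with hB
      set S := ∑ c ∈ C ∩ img d m K0 θ i, tsp d (fib d m K0 θ i c) with hS
      have hSB : S ≤ B := by
        rw [hS, hB]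
        refine Finset.sum_le_sum_of_subset_of_nonneg Finset.inter_subset_right ?_
        intro c _ _
        exact tsp_nonneg hd _
      have hAB : A + B ≤ tsp d univ + δ0 / 8 * tsp d univ := by
        refine hc2.trans ?_
        rw [hl3] at hi3 ⊢
        refine add_le_add le_rfl ?_
        refine le_trans ?_ hi3
        have e : 3 * (2 * (h0 : ℝ) * (i * ρ)) = 6 * h0 * (i * ρ) := by ring
        rw [e]
        refine mul_le_mul_of_nonneg_left hcnt ?_
        have := hrad i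
        positivity
      have hfc : ∑ c ∈ C ∩ img d m K0 θ i, ((fib d m K0 θ i c).card : ℝ) ≤ n := by
        have h1 : ∑ c ∈ img d m K0 θ i, (fib d m K0 θ i c).card = n := by
          have h2 := Finset.card_eq_sum_card_image (fr d C (i * ρ)) (univ : Finset (Fin n))
          simp only [hfib, himg] at h2
          rw [← h2, Finset.card_univ, Fintype.card_fin]
        have h3 : ∑ c ∈ C ∩ img d m K0 θ i, (fib d m K0 θ i c).card ≤ n := by
          exact le_trans (Finset.sum_le_sum_of_subset Finset.inter_subset_right) h1.le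
        exact_mod_cast h3
      have hV : valD d m K0 θ v i ≤ (1 + 4 / K0) * A + ((2 - δ0) * S + 3 * n * (ε2 * ρ)) := by
        unfold valD
        refine add_le_add (hN i hi1).2 ?_
        calc ∑ c ∈ cen d m K0 θ ∩ img d m K0 θ i, v i c
            ≤ ∑ c ∈ cen d m K0 θ ∩ img d m K0 θ i, ((2 - δ0) * tsp d (fib d m K0 θ i c) +
              (2 + 1) * (fib d m K0 θ i c).card * (ε2 * rad d m)) :=
              Finset.sum_le_sum fun c hc => (hv i hi1 hi2 c hc).2
          _ = (2 - δ0) * S + (∑ c ∈ C ∩ img d m K0 θ i, ((fib d m K0 θ i c).card : ℝ)) *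
              (3 * (ε2 * ρ)) := by
              rw [Finset.sum_add_distrib, ← Finset.mul_sum, Finset.sum_mul]
              congr 1
              refine Finset.sum_congr rfl fun c _ => ?_
              ring
          _ ≤ (2 - δ0) * S + n * (3 * (ε2 * ρ)) := by
              refine add_le_add le_rfl ?_
              exact mul_le_mul_of_nonneg_right hfc (by positivity)
          _ = (2 - δ0) * S + 3 * n * (ε2 * ρ) := by ring
      exact arith hδ0 hδ1 hb (tsp_nonneg hd _) hSB hAB hT0 hε2 hηT hV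

end Pool.Agent.H914.T.DINEQ
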