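import Pool.Agent.H699.T.Base

/-!
# Abstract greedy lemma (subtask GRD of MP_7803ed_lc)
-/

set_option autoImplicit false

namespace Pool.Agent.H747.T.GRD

open Finset Classical Pool.Agent.H699.T

theorem aux {α ι : Type} (w : α → ℕ) (cov : ι → Finset α) (dd : ι → ℕ) (P : Finset ι) :
    ∀ (n : ℕ) (S : Finset α), (P.biUnion cov \ S).card ≤ n →
    ∃ Nw : Finset α, Disjoint Nw S ∧ Nw ⊆ P.biUnion cov ∧
    (∀ e ∈ P, 2 * ∑ v ∈ cov e \ (S ∪ Nw), w v ≤ 3 * dd e) ∧
    ∀ Z : Finset α, (∀ e ∈ P, 4 * ∑ v ∈ cov e \ Z, w v ≤ 5 * dd e) →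
      ∑ v ∈ Nw, w v ≤ 6 * ∑ v ∈ Nw ∩ Z, w v := by
  intro n
  induction n with
  | zero =>
    intro S hS
    have h0 : P.biUnion cov \ S = ∅ := by
      rw [← Finset.card_eq_zero]
      omega
    refine ⟨∅, disjoint_empty_left _, empty_subset _, ?_, by simp⟩
    intro e he
    have h1 : cov e \ (S ∪ ∅) = ∅ := by
      rw [union_empty, ← Finset.subset_empty]
      exact (sdiff_subset_sdiff (subset_biUnion_of_mem cov he) (subset_refl _)).trans h0.subset
    rw [h1]
    simp
  | succ n ih =>
    intro S hS
    by_cases hall : ∀ e ∈ P, 2 * ∑ v ∈ cov e \ S, w v ≤ 3 * dd e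
    · refine ⟨∅, disjoint_empty_left _, empty_subset _, ?_, by simp⟩
      intro e he
      rw [union_empty]
      exact hall e he
    · push Not at hall
      obtain ⟨e, he, hlt⟩ := hall
      set new := cov e \ S with hnew
      have hne : new.Nonempty := by
        by_contra hcon
        rw [not_nonempty_iff_eq_empty] at hcon
        rw [hcon] at hlt
        simp at hlt
      have hsub : new ⊆ P.biUnion cov \ S :=
        sdiff_subset_sdiff (subset_biUnion_of_mem cov he) (subset_refl _)
      have hcard : (P.biUnion cov \ (S ∪ new)).card ≤ n := by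
        have h1 : P.biUnion cov \ (S ∪ new) = (P.biUnion cov \ S) \ new := by
          ext x
          simp only [mem_sdiff, mem_union]
          tauto
        have h2 : ((P.biUnion cov \ S) \ new).card = (P.biUnion cov \ S).card - new.card :=
          card_sdiff_of_subset hsub
        have h3 : 0 < new.card := hne.card_pos
        have h4 : new.card ≤ (P.biUnion cov \ S).card := card_le_card hsub
        rw [h1]
        omega
      obtain ⟨N, hN1, hN2, hN3, hN4⟩ := ih (S ∪ new) hcard
      have hdN : Disjoint new N := (hN1.mono_right subset_union_right).symm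
      refine ⟨new ∪ N, ?_, ?_, ?_, ?_⟩
      · rw [disjoint_union_left]
        exact ⟨sdiff_disjoint, hN1.mono_right subset_union_left⟩
      · exact union_subset (hsub.trans sdiff_subset) hN2
      · intro e' he'
        rw [← union_assoc]
        exact hN3 e' he'
      · intro Z hZ
        have h1 := hN4 Z hZ
        have h2 := hZ e he
        have h3 : ∑ v ∈ new \ Z, w v ≤ ∑ v ∈ cov e \ Z, w v :=
          sum_le_sum_of_subset (sdiff_subset_sdiff sdiff_subset (subset_refl _))
        have h4 : ∑ v ∈ new ∩ Z, w v + ∑ v ∈ new \ Z, w v = ∑ v ∈ new, w v :=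
          sum_inter_add_sum_sdiff new Z w
        rw [sum_union hdN, union_inter_distrib_right, sum_union
          (hdN.mono inter_subset_left inter_subset_left)]
        omega

theorem t_GRD : S_GRD := by
  intro α ι w cov dd P S
  exact aux w cov dd P _ S le_rfl

end Pool.Agent.H747.T.GRD
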