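import Pool.Agent.H699.T.Bnd

/-!
# Project TSP, job LST3: locality of the sparse stage
-/

set_option autoImplicit false
set_option linter.unusedSectionVars false

namespace Pool.Agent.H79.T.LST3

open Finset Classical Pool.Agent.H699.T

/-! ### rules for query algorithms -/

section loc

variable (hL : S_LOCBASIC) {V O O' : Type} {D D' : Set (V → V → ℕ)} {c c' : ℕ}

include hL in
theorem mono {f : (V → V → ℕ) → O} (h : LocOn D c f) (hD : D' ⊆ D) (hc : c ≤ c') :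
    LocOn D' c' f := hL.1 V ℕ O D D' c c' f h hD hc

include hL in
theorem det {g : (V → V → ℕ) → O} {f : (V → V → ℕ) → O'} (h : LocOn D c g)
    (h' : ∀ d ∈ D, ∀ d' ∈ D, g d = g d' → f d = f d') : LocOn D c f :=
  hL.2.2.1 V ℕ O O' D c g f h h'

include hL in
theorem bindc {g : (V → V → ℕ) → O} {f : (V → V → ℕ) → O'} (h : LocOn D c g)
    (h' : ∀ d0 ∈ D, LocOn {d | d ∈ D ∧ g d = g d0} c' f) : LocOn D (c + c') f := by
  refine hL.2.1 V ℕ O O' D c c' g f h fun a => ?_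
  by_cases h1 : ∃ d0 ∈ D, g d0 = a
  · obtain ⟨d0, h0, rfl⟩ := h1
    exact h' d0 h0
  · have h2 : LocOn {d | d ∈ D ∧ g d = a} 0 f := by
      refine hL.2.2.2.1 V ℕ O' _ f fun d hd => ?_
      exact absurd ⟨d, hd.1, hd.2⟩ h1
    exact mono hL h2 (Set.Subset.refl _) (Nat.zero_le _)

include hL in
theorem pair {g : (V → V → ℕ) → O} {f : (V → V → ℕ) → O'} (h : LocOn D c g)
    (h' : LocOn D c' f) : LocOn D (c + c') (fun d => (g d, f d)) := by
  refine bindc hL h fun d0 _ => ?_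
  have h1 : LocOn {d | d ∈ D ∧ g d = g d0} c' f := mono hL h' (fun d hd => hd.1) le_rfl
  refine det hL h1 fun d hd d' hd' e => ?_
  rw [hd.2, hd'.2, e]

include hL in
theorem pi [Inhabited O] {ι : Type} [DecidableEq ι] (I : Finset ι) (g : ι → (V → V → ℕ) → O)
    (h : ∀ i ∈ I, LocOn D c (g i)) :
    LocOn D (I.card * c) (fun d i => if i ∈ I then g i d else default) := by
  have h1 := hL.2.2.2.2.2.2 V ℕ O ι D c I g h
  convert h1

end loc

/-! ### unit systems which agree on a unit -/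

variable {N : ℕ}

/-- the two unit systems agree on the unit `l` -/
structure Eqv (s s' : US N) (l : Fin N) : Prop where
  un : s.un l = s'.un l
  ch : ∀ x ∈ s.un l, s.ch x = s'.ch x
  w : ∀ x ∈ s.un l, s.w x = s'.w x
  d : ∀ x ∈ s.un l, ∀ y, s.d x y = s'.d x y

/-- everything about the unit `l` -/
noncomputable def uinf (s : US N) (l : Fin N) :
    Finset (Fin N) × (Fin N → Finset (Fin N) × ℕ × (Fin N → ℕ)) :=
  (s.un l, fun x => if x ∈ s.un l then (s.ch x, s.w x, s.d x) else (∅, 0, fun _ => 0))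

theorem mem_un {s : US N} {l x : Fin N} : x ∈ s.un l ↔ x ∈ s.V0 ∧ s.top x = l := by
  unfold US.un
  rw [Finset.mem_filter]

theorem Eqv.symm {s s' : US N} {l : Fin N} (h : Eqv s s' l) : Eqv s' s l where
  un := h.un.symm
  ch x hx := (h.ch x (by rw [h.un]; exact hx)).symm
  w x hx := (h.w x (by rw [h.un]; exact hx)).symm
  d x hx y := (h.d x (by rw [h.un]; exact hx) y).symm

theorem eqv_of_fun {s s' : US N} {l l' : Fin N} (h1 : s.un l = s'.un l')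
    (h2 : (fun x => if x ∈ s.un l then (s.ch x, s.w x, s.d x) else (∅, 0, fun _ => 0)) =
      (fun x => if x ∈ s'.un l' then (s'.ch x, s'.w x, s'.d x) else (∅, 0, fun _ => 0))) (x : Fin N)
    (hx : x ∈ s.un l) : s.ch x = s'.ch x ∧ s.w x = s'.w x ∧ ∀ y, s.d x y = s'.d x y := by
  have := congrFun h2 x
  simp only [if_pos hx, if_pos (h1 ▸ hx)] at this
  rw [Prod.mk.injEq, Prod.mk.injEq] at this
  exact ⟨this.1, this.2.1, congrFun this.2.2⟩

theorem eqv_of_uinf {s s' : US N} {l : Fin N} (h : uinf s l = uinf s' l) : Eqv s s' l := by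
  unfold uinf at h
  rw [Prod.mk.injEq] at h
  have := eqv_of_fun h.1 h.2
  exact ⟨h.1, fun x hx => (this x hx).1, fun x hx => (this x hx).2.1,
    fun x hx => (this x hx).2.2⟩

theorem uinf_of_eqv {s s' : US N} {l : Fin N} (h : Eqv s s' l) : uinf s l = uinf s' l := by
  unfold uinf
  rw [Prod.mk.injEq]
  refine ⟨h.un, funext fun x => ?_⟩
  by_cases hx : x ∈ s.un l
  · rw [if_pos hx, if_pos (h.un ▸ hx), h.ch x hx, h.w x hx, funext (h.d x hx)]
  · rw [if_neg hx, if_neg (h.un ▸ hx)]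

theorem eqv_of_vinf {s s' : US N} {v : Fin N} (h : s.vinf v = s'.vinf v) :
    (v ∈ s.V0 ↔ v ∈ s'.V0) ∧ s.top v = s'.top v ∧ Eqv s s' (s.top v) := by
  unfold US.vinf at h
  rw [Prod.mk.injEq, Prod.mk.injEq, Prod.mk.injEq] at h
  obtain ⟨h1, h2, h3, h4⟩ := h
  have := eqv_of_fun h3 h4
  refine ⟨iff_of_eq h1, h2, ?_, fun x hx => (this x hx).1, fun x hx => (this x hx).2.1,
    fun x hx => (this x hx).2.2⟩
  rw [h3, h2]

theorem un_eq_empty {s : US N} {k M Kp : ℕ} (hs : s.Ok k M Kp) {l : Fin N}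
    (h : ¬ (l ∈ s.V0 ∧ s.top l = l)) : s.un l = ∅ := by
  rw [Finset.eq_empty_iff_forall_notMem]
  intro x hx
  obtain ⟨a, b⟩ := mem_un.mp hx
  have := hs.topm x a
  rw [b] at this
  exact h this

theorem eqv_of_vinf' {s s' : US N} {k M Kp : ℕ} (hs : s.Ok k M Kp) (hs' : s'.Ok k M Kp)
    {l : Fin N} (h : s.vinf l = s'.vinf l) : Eqv s s' l := by
  obtain ⟨h1, h2, h3⟩ := eqv_of_vinf h
  by_cases h4 : l ∈ s.V0 ∧ s.top l = l
  · rw [h4.2] at h3
    exact h3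
  · have e1 := un_eq_empty hs h4
    have e2 := un_eq_empty hs' (l := l) (by rw [← h1, ← h2]; exact h4)
    refine ⟨by rw [e1, e2], ?_, ?_, ?_⟩
    · intro x hx
      rw [e1] at hx
      exact absurd hx (Finset.notMem_empty x)
    · intro x hx
      rw [e1] at hx
      exact absurd hx (Finset.notMem_empty x)
    · intro x hx
      rw [e1] at hx
      exact absurd hx (Finset.notMem_empty x)

theorem res_eq (s s' : US N) (W : Finset (Fin N)) (h0 : ∀ x ∈ W, x ∈ s.V0 ∧ x ∈ s'.V0)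
    (h1 : ∀ x ∈ W, s.top x = s'.top x ∧ s.ch x = s'.ch x ∧ s.w x = s'.w x ∧
      ∀ y, s.d x y = s'.d x y) : s.res W = s'.res W := by
  unfold US.res
  rw [US.mk.injEq]
  refine ⟨?_, ?_, ?_, ?_, ?_⟩
  · ext x
    rw [Finset.mem_inter, Finset.mem_inter]
    exact ⟨fun h => ⟨(h0 x h.2).2, h.2⟩, fun h => ⟨(h0 x h.2).1, h.2⟩⟩
  · funext x
    split_ifs with hx
    · exact (h1 x hx).1
    · rfl
  · funext x
    split_ifs with hx
    · exact (h1 x hx).2.1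
    · rfl
  · funext x
    split_ifs with hx
    · exact (h1 x hx).2.2.1
    · rfl
  · funext x y
    split_ifs with hx
    · exact (h1 x hx.1).2.2.2 y
    · rfl

theorem Eqv.all {s s' : US N} {l : Fin N} (h : Eqv s s' l) : ∀ x ∈ s.un l,
    (x ∈ s.V0 ∧ x ∈ s'.V0) ∧ (s.top x = s'.top x ∧ s.ch x = s'.ch x ∧ s.w x = s'.w x ∧
      ∀ y, s.d x y = s'.d x y) := by
  intro x hx
  have hx' : x ∈ s'.un l := h.un ▸ hx
  obtain ⟨a, b⟩ := mem_un.mp hx
  obtain ⟨a', b'⟩ := mem_un.mp hx'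
  exact ⟨⟨a, a'⟩, b.trans b'.symm, h.ch x hx, h.w x hx, h.d x hx⟩

theorem res_un {s s' : US N} {l : Fin N} (h : Eqv s s' l) : s.res (s.un l) = s'.res (s'.un l) := by
  rw [← h.un]
  exact res_eq s s' _ (fun x hx => (h.all x hx).1) (fun x hx => (h.all x hx).2)

theorem res_un2 {s s' : US N} {l l' : Fin N} (h : Eqv s s' l) (h' : Eqv s s' l') :
    s.res (s.un l ∪ s.un l') = s'.res (s'.un l ∪ s'.un l') := by
  rw [← h.un, ← h'.un]
  refine res_eq s s' _ (fun x hx => ?_) (fun x hx => ?_)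
  · rcases Finset.mem_union.mp hx with hx | hx
    · exact (h.all x hx).1
    · exact (h'.all x hx).1
  · rcases Finset.mem_union.mp hx with hx | hx
    · exact (h.all x hx).2
    · exact (h'.all x hx).2

theorem piZ_eq {s s' : US N} {l : Fin N} (h : Eqv s s' l) (c : Fin N → ℕ) :
    s.piZ c l = s'.piZ c l := by
  unfold US.piZ
  rw [res_un h, h.un]

theorem anch_eq {s s' : US N} {l : Fin N} (h : Eqv s s' l) (c : Fin N → ℕ) :
    s.anch c l ↔ s'.anch c l := by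
  unfold US.anch
  rw [h.un]

theorem gr_un {s s' : US N} {l : Fin N} (h : Eqv s s' l) (S : Finset (Fin N)) :
    s.gr (s.un l) S = s'.gr (s'.un l) S := by
  unfold US.gr
  rw [res_un h, h.un]

theorem gr_un2 {s s' : US N} {l l' : Fin N} (h : Eqv s s' l) (h' : Eqv s s' l')
    (S : Finset (Fin N)) : s.gr (s.un l ∪ s.un l') S = s'.gr (s'.un l ∪ s'.un l') S := by
  unfold US.gr
  rw [res_un2 h h', h.un, h'.un]

theorem pt_eq (hU : S_USB) {s s' : US N} {k M Kp : ℕ} (hs : s.Ok k M Kp) {l : Fin N}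
    (h : Eqv s s' l) (Z : Finset (Fin N)) {x : Fin N} (hx : x ∈ s.un l) :
    s.pt Z x = s'.pt Z x := by
  unfold US.pt
  rw [← h.ch x hx]
  refine Finset.sum_congr rfl fun v hv => ?_
  exact h.w v ((hU N s k M Kp hs).2.2.2.1 l x hx (Finset.mem_sdiff.mp hv).1)

section two

variable (hU : S_USB) {s s' : US N} {k M Kp : ℕ} (hs : s.Ok k M Kp) (hs' : s'.Ok k M Kp)
  (c1 c2 : Fin N → ℕ) (Δ2 : ℕ)

include hs hs' in
theorem cd_eq {l : Fin N} (h : Eqv s s' l) {y : Fin N} (hy : y ∈ s.un l) :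
    Cd s.d c1 c2 y = Cd s'.d c1 c2 y := by
  unfold Cd
  ext x
  rw [Finset.mem_filter, Finset.mem_filter, hs.symm x y, hs'.symm x y, h.d y hy x]

include hs hs' in
theorem light_eq {l : Fin N} (h : Eqv s s' l) :
    s.light c1 c2 Δ2 l ↔ s'.light c1 c2 Δ2 l := by
  unfold US.light
  rw [anch_eq h, ← h.un, Finset.sum_congr rfl fun y hy => by rw [cd_eq hs hs' c1 c2 h hy]]

/-- the candidates of the unit `l` -/
noncomputable def CC (s : US N) (c1 c2 : Fin N → ℕ) (Δ2 : ℕ) (l : Fin N) : Finset (Fin N) :=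
  if s.light c1 c2 Δ2 l then (s.un l).biUnion fun y => Cd s.d c1 c2 y else ∅

theorem card_CC (s : US N) (l : Fin N) : (CC s c1 c2 Δ2 l).card ≤ Δ2 := by
  unfold CC
  split_ifs with h
  · exact Finset.card_biUnion_le.trans h.2.2
  · simp

include hs hs' in
theorem CC_eq {l : Fin N} (h : Eqv s s' l) : CC s c1 c2 Δ2 l = CC s' c1 c2 Δ2 l := by
  unfold CC
  by_cases h1 : s.light c1 c2 Δ2 l
  · rw [if_pos h1, if_pos ((light_eq hs hs' c1 c2 Δ2 h).mp h1), ← h.un]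
    ext x
    rw [Finset.mem_biUnion, Finset.mem_biUnion]
    refine exists_congr fun y => and_congr_right fun hy => ?_
    rw [cd_eq hs hs' c1 c2 h hy]
  · rw [if_neg h1, if_neg (fun h2 => h1 ((light_eq hs hs' c1 c2 Δ2 h).mpr h2))]

include hU hs in
/-- a neighbour is the top of a candidate -/
theorem nbr_CC {l l' : Fin N} (h : l' ∈ s.nbr c1 c2 Δ2 l) :
    ∃ x ∈ CC s c1 c2 Δ2 l, x ∈ s.un l' := by
  unfold US.nbr at h
  rw [Finset.mem_filter] at h
  obtain ⟨-, -, g1, g2, y, hy, x, hx, h4⟩ := h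
  refine ⟨x, ?_, hx⟩
  unfold CC
  rw [if_pos g1, Finset.mem_biUnion]
  refine ⟨y, hy, ?_⟩
  have p1 := ((hU N s k M Kp hs).2.1 _ l g1.2.1).2.1 y hy
  have p2 := ((hU N s k M Kp hs).2.1 _ l' g2.2.1).2.1 x hx
  unfold Cd
  rw [Finset.mem_filter]
  have q1 := Nat.min_le_right (c1 y) (c2 y)
  have q2 := Nat.min_le_left (c1 x) (c2 x)
  rw [hs.symm x y]
  refine ⟨Finset.mem_univ _, ?_, ?_, ?_⟩
  · omega
  · omega
  · omega

include hU hs hs' in
theorem nbr_of_eqv {l l' : Fin N} (e : Eqv s s' l) (e' : Eqv s s' l')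
    (h : l' ∈ s.nbr c1 c2 Δ2 l) : l' ∈ s'.nbr c1 c2 Δ2 l := by
  unfold US.nbr at h ⊢
  rw [Finset.mem_filter] at h ⊢
  obtain ⟨-, g0, g1, g2, y, hy, x, hx, h4⟩ := h
  refine ⟨Finset.mem_univ _, g0, (light_eq hs hs' c1 c2 Δ2 e).mp g1,
    (light_eq hs hs' c1 c2 Δ2 e').mp g2, y, e.un ▸ hy, x, e'.un ▸ hx, ?_⟩
  rw [← e.d y hy x, ← piZ_eq e, ← piZ_eq e', ← pt_eq hU hs e _ hy, ← pt_eq hU hs e' _ hx]
  exact h4

include hU hs in
theorem card_nbr (l : Fin N) : (s.nbr c1 c2 Δ2 l).card ≤ Δ2 := by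
  refine le_trans ?_ (card_CC c1 c2 Δ2 s l)
  refine le_trans (Finset.card_le_card (t := (CC s c1 c2 Δ2 l).image s.top) ?_)
    Finset.card_image_le
  intro l' hl'
  obtain ⟨x, h1, h2⟩ := nbr_CC hU hs c1 c2 Δ2 hl'
  rw [Finset.mem_image]
  exact ⟨x, h1, (mem_un.mp h2).2⟩

end two

/-! ### locality of everything about a unit -/

section fin

variable (hL : S_LOCBASIC) (hU : S_USB) {k M Kp c0 : ℕ} {D : Set (Fin N → Fin N → ℕ)}
  {s : (Fin N → Fin N → ℕ) → US N} (hD : ∀ d ∈ D, (s d).Ok k M Kp ∧ (s d).d = d)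
  (hv : ∀ v, LocOn D c0 (fun d => (s d).vinf v)) (c1 c2 : Fin N → ℕ) (Δ2 : ℕ)

include hL hD hv in
theorem loc_uinf (l : Fin N) : LocOn D c0 (fun d => uinf (s d) l) :=
  det hL (hv l) fun d hd d' hd' e =>
    uinf_of_eqv (eqv_of_vinf' (hD d hd).1 (hD d' hd').1 e)

include hL hU hD hv in
theorem loc_nbr (l : Fin N) : LocOn D ((1 + Δ2) * c0) (fun d => (s d).nbr c1 c2 Δ2 l) := by
  rw [Nat.add_mul, Nat.one_mul]
  refine bindc hL (loc_uinf hL hD hv l) fun d0 h0 => ?_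
  have : Inhabited (Fin N) := ⟨l⟩
  have h1 : LocOn {d | d ∈ D ∧ uinf (s d) l = uinf (s d0) l}
      ((CC (s d0) c1 c2 Δ2 l).card * c0)
      (fun d x => if x ∈ CC (s d0) c1 c2 Δ2 l then (s d).vinf x else default) :=
    pi hL _ (fun x d => (s d).vinf x) fun i _ =>
      mono hL (D := D) (hv i) (fun _ hd => And.left hd) le_rfl
  have h2 := mono hL h1 (Set.Subset.refl _)
    (Nat.mul_le_mul_right c0 (card_CC c1 c2 Δ2 (s d0) l))
  refine det hL h2 fun d hd d' hd' e => ?_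
  have key : ∀ d ∈ {d | d ∈ D ∧ uinf (s d) l = uinf (s d0) l},
      ∀ d' ∈ {d | d ∈ D ∧ uinf (s d) l = uinf (s d0) l},
      ((fun x => if x ∈ CC (s d0) c1 c2 Δ2 l then (s d).vinf x else default) =
        fun x => if x ∈ CC (s d0) c1 c2 Δ2 l then (s d').vinf x else default) →
      (s d).nbr c1 c2 Δ2 l ⊆ (s d').nbr c1 c2 Δ2 l := by
    intro d hd d' hd' e l' hl'
    obtain ⟨x, hx, hx'⟩ := nbr_CC hU (hD d hd.1).1 c1 c2 Δ2 hl'
    rw [CC_eq (hD d hd.1).1 (hD d0 h0).1 c1 c2 Δ2 (eqv_of_uinf hd.2)] at hx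
    have e1 := congrFun e x
    simp only [if_pos hx] at e1
    have e2 := (eqv_of_vinf e1).2.2
    rw [(mem_un.mp hx').2] at e2
    exact nbr_of_eqv hU (hD d hd.1).1 (hD d' hd'.1).1 c1 c2 Δ2
      (eqv_of_uinf (hd.2.trans hd'.2.symm)) e2 hl'
  exact Finset.Subset.antisymm (key d hd d' hd' e) (key d' hd' d hd e.symm)

theorem conf_eq {Q : ℕ} (χ : Fin N → Fin Q) {s s' : US N} {l : Fin N}
    (h : s.nbr c1 c2 Δ2 l = s'.nbr c1 c2 Δ2 l) :
    s.conf c1 c2 Δ2 χ l ↔ s'.conf c1 c2 Δ2 χ l := by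
  unfold US.conf
  rw [h]

include hL hU hD hv in
theorem loc_good {Q : ℕ} (χ : Fin N → Fin Q) (l : Fin N) :
    LocOn D ((2 + Δ2) * c0) (fun d => (s d).good c1 c2 Δ2 χ l) := by
  have h1 := pair hL (loc_uinf hL hD hv l) (loc_nbr hL hU hD hv c1 c2 Δ2 l)
  have h2 : (2 + Δ2) * c0 = c0 + (1 + Δ2) * c0 := by ring
  rw [h2]
  refine det hL h1 fun d hd d' hd' e => ?_
  rw [Prod.mk.injEq] at e
  apply propext
  unfold US.good
  rw [conf_eq c1 c2 Δ2 χ e.2,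
    light_eq (hD d hd).1 (hD d' hd').1 c1 c2 Δ2 (eqv_of_uinf e.1)]

/-- choice of a witness -/
noncomputable def gm (P : Fin N → Prop) (l : Fin N) : Fin N :=
  if h : ∃ l', P l' then Classical.choose h else l

theorem mate_gm {Q : ℕ} (χ : Fin N → Fin Q) (s : US N) (r : ℕ) (l : Fin N) :
    s.mate c1 c2 Δ2 χ r l = gm (fun l' => s.IsMate c1 c2 Δ2 χ r l l') l := rfl

include hL hU hD hv in
theorem loc_mate {Q : ℕ} (χ : Fin N → Fin Q) (r : ℕ) (l : Fin N) :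
    LocOn D (((1 + Δ2) + (Δ2 + 1) * (2 + Δ2)) * c0) (fun d => (s d).mate c1 c2 Δ2 χ r l) := by
  rw [Nat.add_mul, Nat.mul_assoc]
  refine bindc hL (loc_nbr hL hU hD hv c1 c2 Δ2 l) fun d0 h0 => ?_
  have h1 : LocOn {d | d ∈ D ∧ (s d).nbr c1 c2 Δ2 l = (s d0).nbr c1 c2 Δ2 l}
      ((insert l ((s d0).nbr c1 c2 Δ2 l)).card * ((2 + Δ2) * c0))
      (fun d x => if x ∈ insert l ((s d0).nbr c1 c2 Δ2 l) then
        (s d).good c1 c2 Δ2 χ x else default) :=
    pi hL _ (fun x d => (s d).good c1 c2 Δ2 χ x) fun i _ =>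
      mono hL (D := D) (loc_good hL hU hD hv c1 c2 Δ2 χ i) (fun _ hd => And.left hd) le_rfl
  have hc : (insert l ((s d0).nbr c1 c2 Δ2 l)).card ≤ Δ2 + 1 :=
    (Finset.card_insert_le _ _).trans
      (Nat.add_le_add_right (card_nbr hU (hD d0 h0).1 c1 c2 Δ2 l) 1)
  have h2 := mono hL h1 (Set.Subset.refl _) (Nat.mul_le_mul_right ((2 + Δ2) * c0) hc)
  refine det hL h2 fun d hd d' hd' e => ?_
  rw [mate_gm, mate_gm]
  congr 1
  funext l'
  apply propext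
  unfold US.IsMate
  have e0 : (s d).nbr c1 c2 Δ2 l = (s d').nbr c1 c2 Δ2 l := hd.2.trans hd'.2.symm
  rw [e0]
  refine and_congr_right fun hl' => ?_
  have e1 := congrFun e l
  simp only [if_pos (Finset.mem_insert_self l _)] at e1
  have hl2 : l' ∈ insert l ((s d0).nbr c1 c2 Δ2 l) := by
    rw [← hd'.2]
    exact Finset.mem_insert_of_mem hl'
  have e2 := congrFun e l'
  simp only [if_pos hl2] at e2
  rw [e1, e2]

theorem st_zero {Q : ℕ} (χ : Fin N → Fin Q) {s s' : US N} {l : Fin N} (h : Eqv s s' l) :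
    s.st c1 c2 Δ2 χ 0 l = s'.st c1 c2 Δ2 χ 0 l := by
  unfold US.st
  rw [piZ_eq h, gr_un h]

theorem st_succ {Q : ℕ} (χ : Fin N → Fin Q) {s s' : US N} {l m : Fin N} (r : ℕ) (h : Eqv s s' l)
    (h' : Eqv s s' m) (e1 : s.mate c1 c2 Δ2 χ r l = m) (e2 : s'.mate c1 c2 Δ2 χ r l = m)
    (e3 : s.st c1 c2 Δ2 χ r l = s'.st c1 c2 Δ2 χ r l)
    (e4 : s.st c1 c2 Δ2 χ r m = s'.st c1 c2 Δ2 χ r m) :
    s.st c1 c2 Δ2 χ (r + 1) l = s'.st c1 c2 Δ2 χ (r + 1) l := by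
  rw [US.st, US.st, e1, e2, e3, e4, gr_un2 h h', h.un]

end fin

theorem loc_st (hL : S_LOCBASIC) (hU : S_USB) (Δ2 : ℕ) (r : ℕ) : ∃ K : ℕ,
    ∀ (N k M Kp c0 Q : ℕ) (D : Set (Fin N → Fin N → ℕ)) (s : (Fin N → Fin N → ℕ) → US N),
    (∀ d ∈ D, (s d).Ok k M Kp ∧ (s d).d = d) → (∀ v, LocOn D c0 (fun d => (s d).vinf v)) →
    ∀ (c1 c2 : Fin N → ℕ) (χ : Fin N → Fin Q) (l : Fin N),
    LocOn D (K * c0) (fun d => (s d).st c1 c2 Δ2 χ r l) := by
  induction r with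
  | zero =>
    refine ⟨1, fun N k M Kp c0 Q D s hD hv c1 c2 χ l => ?_⟩
    rw [Nat.one_mul]
    exact det hL (loc_uinf hL hD hv l) fun d hd d' hd' e =>
      st_zero c1 c2 Δ2 χ (eqv_of_uinf e)
  | succ r ih =>
    obtain ⟨K, hK⟩ := ih
    refine ⟨((1 + Δ2) + (Δ2 + 1) * (2 + Δ2)) + (1 + (1 + (K + K))),
      fun N k M Kp c0 Q D s hD hv c1 c2 χ l => ?_⟩
    rw [Nat.add_mul]
    refine bindc hL (loc_mate hL hU hD hv c1 c2 Δ2 χ r l) fun d0 h0 => ?_
    have hs := hK N k M Kp c0 Q D s hD hv c1 c2 χ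
    have h1 := pair hL (loc_uinf hL hD hv l) (pair hL
      (loc_uinf hL hD hv ((s d0).mate c1 c2 Δ2 χ r l))
      (pair hL (hs l) (hs ((s d0).mate c1 c2 Δ2 χ r l))))
    have h2 := mono hL h1 (D' := {d | d ∈ D ∧
      (s d).mate c1 c2 Δ2 χ r l = (s d0).mate c1 c2 Δ2 χ r l}) (fun d hd => hd.1)
      (c' := (1 + (1 + (K + K))) * c0) (le_of_eq (by ring))
    refine det hL h2 fun d hd d' hd' e => ?_
    have f1 := Prod.mk.inj e
    have f2 := Prod.mk.inj f1.2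
    have f3 := Prod.mk.inj f2.2
    exact st_succ c1 c2 Δ2 χ r (eqv_of_uinf f1.1) (eqv_of_uinf f2.1) hd.2 hd'.2 f3.1 f3.2

theorem t_LST3 : S_LOCBASIC → S_USB → S_GRD → S_LST3 := by
  intro hL hU _ M Δ2 Q
  obtain ⟨K, hK⟩ := loc_st hL hU Δ2 (Q * Q)
  refine ⟨1 + ((2 + Δ2) + K), fun N k Kp c0 D s hD hv c1 c2 χ v => ?_⟩
  rw [Nat.add_mul, Nat.one_mul]
  refine bindc hL (hv v) fun d0 h0 => ?_
  have h1 := pair hL (loc_good hL hU hD hv c1 c2 Δ2 χ ((s d0).top v))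
    (hK N k M Kp c0 Q D s hD hv c1 c2 χ ((s d0).top v))
  have h2 := mono hL h1 (D' := {d | d ∈ D ∧ (s d).vinf v = (s d0).vinf v})
    (fun d hd => hd.1) (c' := ((2 + Δ2) + K) * c0) (le_of_eq (by ring))
  refine det hL h2 fun d hd d' hd' e => ?_
  rw [Prod.mk.injEq] at e
  have e1 := eqv_of_vinf (hd.2)
  have e2 := eqv_of_vinf (hd'.2)
  apply propext
  unfold US.Zf US.XX
  rw [Finset.mem_filter, Finset.mem_filter, Finset.mem_filter, Finset.mem_filter, e1.1, e2.1,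
    e1.2.1, e2.2.1, e.1, e.2]

end Pool.Agent.H79.T.LST3
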