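import Pool.Agent.H699.T.Prob

/-!
Project TSP (helper699): finite probability basics.
-/

set_option autoImplicit false

namespace Pool.Agent.H94.T.P1

open Finset Classical
open Pool.Agent.H699.T

theorem ex_mono {Ω : Type} [Fintype Ω] (f g : Ω → ℝ) (h : ∀ ω, f ω ≤ g ω) : ex f ≤ ex g := by
  unfold ex
  exact div_le_div_of_nonneg_right (Finset.sum_le_sum fun ω _ => h ω) (Nat.cast_nonneg _)

theorem pr_eq {Ω : Type} [Fintype Ω] (P : Ω → Prop) [inst : ∀ ω, Decidable (P ω)] :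
    pr P = ex (fun ω => if P ω then (1 : ℝ) else 0) := by
  unfold pr
  congr 1
  funext ω
  by_cases h : P ω
  · rw [if_pos h, if_pos h]
  · rw [if_neg h, if_neg h]

theorem ex_add {Ω : Type} [Fintype Ω] (f g : Ω → ℝ) : ex (fun ω => f ω + g ω) = ex f + ex g := by
  unfold ex
  rw [Finset.sum_add_distrib, add_div]

theorem ex_mul {Ω : Type} [Fintype Ω] (c : ℝ) (f : Ω → ℝ) : ex (fun ω => c * f ω) = c * ex f := by
  unfold ex
  rw [← Finset.mul_sum, mul_div_assoc]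

theorem ex_const {Ω : Type} [Fintype Ω] [Nonempty Ω] (c : ℝ) : ex (fun _ : Ω => c) = c := by
  unfold ex
  rw [Finset.sum_const, Finset.card_univ, nsmul_eq_mul]
  have h : (Fintype.card Ω : ℝ) ≠ 0 := Nat.cast_ne_zero.2 Fintype.card_ne_zero
  field_simp

theorem ex_sum {Ω ι : Type} [Fintype Ω] (I : Finset ι) (f : ι → Ω → ℝ) :
    ex (fun ω => ∑ i ∈ I, f i ω) = ∑ i ∈ I, ex (f i) := by
  unfold ex
  rw [Finset.sum_comm, Finset.sum_div]

theorem ex_fub {Ω Ω' : Type} [Fintype Ω] [Fintype Ω'] (f : Ω × Ω' → ℝ) :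
    ex f = ex (fun ω => ex (fun ω' => f (ω, ω'))) := by
  unfold ex
  rw [Fintype.sum_prod_type, ← Finset.sum_div, div_div, Fintype.card_prod, Nat.cast_mul, mul_comm
    (Fintype.card Ω : ℝ)]

theorem ex_fub' {Ω Ω' : Type} [Fintype Ω] [Fintype Ω'] (f : Ω × Ω' → ℝ) :
    ex f = ex (fun ω' => ex (fun ω => f (ω, ω'))) := by
  unfold ex
  rw [Fintype.sum_prod_type_right, ← Finset.sum_div, div_div, Fintype.card_prod, Nat.cast_mul]

theorem pr_mono {Ω : Type} [Fintype Ω] (P Q : Ω → Prop) (h : ∀ ω, P ω → Q ω) : pr P ≤ pr Q := by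
  unfold pr
  refine ex_mono _ _ fun ω => ?_
  by_cases hp : P ω
  · rw [if_pos hp, if_pos (h ω hp)]
  · rw [if_neg hp]
    split_ifs <;> norm_num

theorem pr_markov {Ω : Type} [Fintype Ω] (f : Ω → ℝ) (c : ℝ) (hc : 0 < c) (hf : ∀ ω, 0 ≤ f ω) :
    pr (fun ω => c ≤ f ω) ≤ ex f / c := by
  rw [le_div_iff₀ hc, mul_comm]
  unfold pr
  rw [← ex_mul]
  refine ex_mono _ _ fun ω => ?_
  split_ifs with h
  · rw [mul_one]
    exact h
  · rw [mul_zero]
    exact hf ω

theorem pr_or {Ω : Type} [Fintype Ω] (P Q : Ω → Prop) :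
    pr (fun ω => P ω ∨ Q ω) ≤ pr P + pr Q := by
  unfold pr
  rw [← ex_add]
  refine ex_mono _ _ fun ω => ?_
  by_cases hp : P ω
  · rw [if_pos (Or.inl hp), if_pos hp]
    split_ifs <;> norm_num
  · by_cases hq : Q ω
    · rw [if_pos (Or.inr hq), if_neg hp, if_pos hq]
      norm_num
    · rw [if_neg (by tauto), if_neg hp, if_neg hq]
      norm_num

theorem pr_bd {Ω : Type} [Fintype Ω] (P : Ω → Prop) : 0 ≤ pr P ∧ pr P ≤ 1 := by
  unfold pr ex
  constructor
  · refine div_nonneg (Finset.sum_nonneg fun ω _ => ?_) (Nat.cast_nonneg _)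
    split_ifs <;> norm_num
  · refine div_le_one_of_le₀ ?_ (Nat.cast_nonneg _)
    have : ∑ ω : Ω, (if P ω then (1 : ℝ) else 0) ≤ ∑ ω : Ω, 1 :=
      Finset.sum_le_sum fun ω _ => by split_ifs <;> norm_num
    simpa using this

theorem pr_union {Ω ι : Type} [Fintype Ω] (I : Finset ι) (P : ι → Ω → Prop) :
    pr (fun ω => ∃ i ∈ I, P i ω) ≤ ∑ i ∈ I, pr (P i) := by
  unfold pr
  rw [← ex_sum]
  refine ex_mono _ _ fun ω => ?_
  split_ifs with h
  · obtain ⟨i, hi, hp⟩ := h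
    have h1 : (if P i ω then (1 : ℝ) else 0) ≤ ∑ i ∈ I, if P i ω then (1 : ℝ) else 0 :=
      Finset.single_le_sum (f := fun i => if P i ω then (1 : ℝ) else 0)
        (fun j _ => by split_ifs <;> norm_num) hi
    rwa [if_pos hp] at h1
  · exact Finset.sum_nonneg fun j _ => by split_ifs <;> norm_num

theorem t_EXBASIC : S_EXBASIC :=
  ⟨fun _ _ f g h => ex_mono f g h, fun _ _ f g => ex_add f g, fun _ _ c f => ex_mul c f,
    fun _ _ _ c => ex_const c, fun _ _ _ I f => ex_sum I f, fun _ _ _ _ f => ex_fub f,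
    fun _ _ _ _ f => ex_fub' f, fun _ _ f c hc hf => pr_markov f c hc hf,
    fun _ _ P Q => pr_or P Q, fun _ _ P Q h => pr_mono P Q h, fun _ _ P => pr_bd P,
    fun _ _ _ I P => pr_union I P⟩

theorem t_AVOID : S_AVOID := by
  intro N q hq S
  have hq0 : (q : ℝ) ≠ 0 := Nat.cast_ne_zero.2 (by omega)
  have h1 : ∀ ω : Fin N → Fin q, (if (∀ u ∈ S, u ∉ zs ω) then (1 : ℝ) else 0) =
      ∏ v, (if v ∈ S ∧ (ω v : ℕ) = 0 then (0 : ℝ) else 1) := by
    intro ω
    split_ifs with h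
    · symm
      refine Finset.prod_eq_one fun v _ => ?_
      rw [if_neg]
      rintro ⟨h2, h3⟩
      exact h v h2 (by simp [zs, h3])
    · push Not at h
      obtain ⟨u, hu, hz⟩ := h
      symm
      refine Finset.prod_eq_zero (Finset.mem_univ u) ?_
      rw [if_pos ⟨hu, by simpa [zs] using hz⟩]
  have h2 : ∑ ω : Fin N → Fin q, ∏ v, (if v ∈ S ∧ (ω v : ℕ) = 0 then (0 : ℝ) else 1) =
      ∏ v : Fin N, ∑ i : Fin q, (if v ∈ S ∧ (i : ℕ) = 0 then (0 : ℝ) else 1) := by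
    rw [Finset.prod_univ_sum, Fintype.piFinset_univ]
  have h3 : ∀ v : Fin N, ∑ i : Fin q, (if v ∈ S ∧ (i : ℕ) = 0 then (0 : ℝ) else 1) =
      q * (if v ∈ S then (1 - 1 / (q : ℝ)) else 1) := by
    intro v
    by_cases hv : v ∈ S
    · rw [if_pos hv]
      have e1 : ∀ i : Fin q, (if v ∈ S ∧ (i : ℕ) = 0 then (0 : ℝ) else 1) =
          1 - (if i = (⟨0, by omega⟩ : Fin q) then 1 else 0) := by
        intro i
        by_cases hi : (i : ℕ) = 0
        · rw [if_pos ⟨hv, hi⟩, if_pos (Fin.ext hi)]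
          norm_num
        · rw [if_neg (fun h => hi h.2), if_neg (fun h => hi (by rw [h]))]
          norm_num
      rw [Finset.sum_congr rfl fun i _ => e1 i, Finset.sum_sub_distrib, Finset.sum_ite_eq',
        if_pos (Finset.mem_univ _)]
      simp only [Finset.sum_const, Finset.card_univ, Fintype.card_fin, nsmul_eq_mul, mul_one]
      field_simp
    · rw [if_neg hv]
      have e1 : ∀ i : Fin q, (if v ∈ S ∧ (i : ℕ) = 0 then (0 : ℝ) else 1) = 1 :=
        fun i => if_neg fun h => hv h.1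
      rw [Finset.sum_congr rfl fun i _ => e1 i]
      simp
  have h0 : pr (fun ω : Fin N → Fin q => ∀ u ∈ S, u ∉ zs ω) =
      ex (fun ω => if (∀ u ∈ S, u ∉ zs ω) then (1 : ℝ) else 0) := pr_eq _
  rw [h0]
  unfold ex
  rw [Finset.sum_congr rfl fun ω _ => h1 ω, h2, Finset.prod_congr rfl fun v _ => h3 v,
    Finset.prod_mul_distrib, Finset.prod_const, Finset.card_univ, Fintype.card_fin]
  have h4 : ∏ v : Fin N, (if v ∈ S then (1 - 1 / (q : ℝ)) else 1) = (1 - 1 / (q : ℝ)) ^ S.card := by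
    rw [Finset.prod_ite_mem, Finset.univ_inter, Finset.prod_const]
  rw [h4]
  have h5 : (Fintype.card (Fin N → Fin q) : ℝ) = (q : ℝ) ^ N := by
    simp
  rw [h5]
  field_simp

theorem t_EXSUM : S_EXSUM := by
  intro N q hq g
  have : NeZero q := ⟨by omega⟩
  have h1 : ∀ ω : Fin N → Fin q, ∑ v ∈ zs ω, g v =
      ∑ v, g v * (1 + (-1) * (if (∀ u ∈ ({v} : Finset (Fin N)), u ∉ zs ω) then (1 : ℝ) else 0)) := by
    intro ω
    rw [← Finset.sum_filter_add_sum_filter_not Finset.univ (fun v => v ∈ zs ω)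
      (fun v => g v * (1 + (-1) * (if (∀ u ∈ ({v} : Finset (Fin N)), u ∉ zs ω) then (1 : ℝ) else 0)))]
    have e1 : ∑ v ∈ Finset.univ.filter (fun v => v ∉ zs ω),
        g v * (1 + (-1) * (if (∀ u ∈ ({v} : Finset (Fin N)), u ∉ zs ω) then (1 : ℝ) else 0)) = 0 := by
      refine Finset.sum_eq_zero fun v hv => ?_
      have hv' : v ∉ zs ω := (Finset.mem_filter.1 hv).2
      rw [if_pos (by simpa using hv')]
      ring
    rw [e1, add_zero]
    have e2 : Finset.univ.filter (fun v => v ∈ zs ω) = zs ω := by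
      ext v
      simp
    rw [e2]
    refine Finset.sum_congr rfl fun v hv => ?_
    rw [if_neg (by simpa using hv)]
    ring
  have h2 : (fun ω : Fin N → Fin q => ∑ v ∈ zs ω, g v) = fun ω =>
      ∑ v, g v * (1 + (-1) * (if (∀ u ∈ ({v} : Finset (Fin N)), u ∉ zs ω) then (1 : ℝ) else 0)) :=
    funext h1
  rw [h2, ex_sum, Finset.sum_div]
  refine Finset.sum_congr rfl fun v _ => ?_
  rw [ex_mul, ex_add, ex_mul, ex_const]
  have h3 := t_AVOID N q hq {v}
  have h0 : pr (fun ω : Fin N → Fin q => ∀ u ∈ ({v} : Finset (Fin N)), u ∉ zs ω) =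
      ex (fun ω => if (∀ u ∈ ({v} : Finset (Fin N)), u ∉ zs ω) then (1 : ℝ) else 0) := pr_eq _
  rw [h0] at h3
  rw [h3, Finset.card_singleton, pow_one]
  ring

theorem t_MISS : S_MISS := by
  intro N t ht Y
  have h1 : (fun ω : Fin N → Fin t => if (∀ u ∈ Y, u ∉ zs ω) then (Y.card : ℝ) else 0) =
      fun ω => (Y.card : ℝ) * (if (∀ u ∈ Y, u ∉ zs ω) then (1 : ℝ) else 0) := by
    funext ω
    split_ifs <;> ring
  rw [h1, ex_mul]
  have h2 := t_AVOID N t ht Y
  have h0 : pr (fun ω : Fin N → Fin t => ∀ u ∈ Y, u ∉ zs ω) =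
      ex (fun ω => if (∀ u ∈ Y, u ∉ zs ω) then (1 : ℝ) else 0) := pr_eq _
  rw [h0] at h2
  rw [h2]
  have ht0 : (1 : ℝ) ≤ t := by exact_mod_cast ht
  set x : ℝ := 1 - 1 / (t : ℝ) with hx
  have hx0 : 0 ≤ x := by
    rw [hx, sub_nonneg, div_le_one (by linarith)]
    exact ht0
  have hx1 : x ≤ 1 := by
    have : 0 ≤ 1 / (t : ℝ) := by positivity
    linarith
  have h3 : (Y.card : ℝ) * x ^ Y.card ≤ ∑ k ∈ Finset.range Y.card, x ^ k := by
    calc (Y.card : ℝ) * x ^ Y.card = ∑ k ∈ Finset.range Y.card, x ^ Y.card := by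
          rw [Finset.sum_const, Finset.card_range, nsmul_eq_mul]
      _ ≤ _ := Finset.sum_le_sum fun k hk =>
          pow_le_pow_of_le_one hx0 hx1 (Finset.mem_range.1 hk).le
  have h4 := mul_neg_geom_sum x Y.card
  have h5 : 1 - x = 1 / (t : ℝ) := by rw [hx]; ring
  rw [h5] at h4
  have h6 : ∑ k ∈ Finset.range Y.card, x ^ k = t * (1 - x ^ Y.card) := by
    rw [← h4]
    field_simp
  have h7 : 0 ≤ x ^ Y.card := pow_nonneg hx0 _
  calc (Y.card : ℝ) * x ^ Y.card ≤ t * (1 - x ^ Y.card) := by rw [← h6]; exact h3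
    _ ≤ t := by nlinarith

end Pool.Agent.H94.T.P1
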