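import Pool.Agent.H699.T.Forest

/-!
# Locality of the parent function (subtask PLOC of MP_7803ed_lc)
-/

set_option autoImplicit false

namespace Pool.Agent.H747.T.PLOC

open Finset Classical Pool.Agent.H699.T

/-- a path from inside to outside has a leaving edge -/
theorem leave {α : Type} {r : α → α → Prop} {S : Finset α} {v w : α}
    (h : Relation.ReflTransGen r v w) (hv : v ∈ S) (hw : w ∉ S) :
    ∃ a ∈ S, ∃ b, b ∉ S ∧ r a b := by
  induction h with
  | refl => exact absurd hv hw
  | @tail b c _ hbc ih =>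
    by_cases hb : b ∈ S
    · exact ⟨b, hb, c, hw, hbc⟩
    · exact ih hb

/-- the bottleneck is attained -/
theorem th_mem {N : ℕ} (κ : Fin N → Fin N → ℕ) (R : Finset (Fin N)) (hR : R.Nonempty)
    (v : Fin N) : ∃ r ∈ R, Conn κ (th κ R v + 1) v r := by
  obtain ⟨r, hr⟩ := hR
  have hne : {t | ∃ r ∈ R, Conn κ (t + 1) v r}.Nonempty :=
    ⟨κ v r, r, hr, Relation.ReflTransGen.single (Nat.lt_succ_self _)⟩
  exact Nat.sInf_mem hne

theorem t_PLOC : S_CLUS → S_PAR → S_PRIM1 → S_PRIM2 → S_PLOC := by
  intro hCLUS _ hP1 hP2 N κ κ' hκ hκ' R hR v hv hX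
  obtain ⟨hXR, hnuR, hhN, _, hQX, _, _⟩ := hP2 N κ hκ R hR v hv
  obtain ⟨hvp, hmono, _, hnu, hloc⟩ := hP1 N κ hκ v
  obtain ⟨hQR, hvQ, _, hQout, hQconn, hExit, hEuniq, _⟩ := hCLUS N κ hκ R hR v hv
  -- the exploration
  have hsub : ∀ i, i ≤ hit κ R v → prim κ v i ⊆ X κ R v := fun i hi => hmono i _ hi
  have hprim : ∀ i, i ≤ hit κ R v → prim κ' v i = prim κ v i := by
    intro i
    induction i with
    | zero => intro _; rfl
    | succ i ih =>
      intro hi
      have h1 := ih (by omega)
      have h2 : nu κ' v (prim κ v i) = nu κ v (prim κ v i) :=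
        hloc _ _ (fun a ha b => hX a (hsub i (by omega) ha) b)
      show insert (nu κ' v (prim κ' v i)) (prim κ' v i) = insert (nu κ v (prim κ v i)) (prim κ v i)
      rw [h1, h2]
  have hnu' : ∀ i, i ≤ hit κ R v → nu κ' v (prim κ' v i) = nu κ v (prim κ v i) := by
    intro i hi
    rw [hprim i hi]
    exact hloc _ _ (fun a ha b => hX a (hsub i hi ha) b)
  have hhit : hit κ' R v = hit κ R v := by
    apply le_antisymm
    · apply Nat.sInf_le
      show nu κ' v (prim κ' v (hit κ R v)) ∈ R
      rw [hnu' _ le_rfl]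
      exact hnuR
    · by_contra hcon
      push Not at hcon
      have hne : {i | nu κ' v (prim κ' v i) ∈ R}.Nonempty := by
        refine ⟨hit κ R v, ?_⟩
        show nu κ' v (prim κ' v (hit κ R v)) ∈ R
        rw [hnu' _ le_rfl]
        exact hnuR
      have h1 : nu κ' v (prim κ' v (hit κ' R v)) ∈ R := Nat.sInf_mem hne
      rw [hnu' _ hcon.le] at h1
      exact Nat.notMem_of_lt_sInf (s := {i | nu κ v (prim κ v i) ∈ R}) hcon h1
  have hXX : X κ' R v = X κ R v := by
    unfold X
    rw [hhit]
    exact hprim _ le_rfl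
  -- the bottleneck
  have hth : th κ' R v = th κ R v := by
    apply le_antisymm
    · obtain ⟨r, hr, hconn⟩ := th_mem κ R hR v
      have hstep : ∀ i, i ≤ hit κ R v → (∀ x ∈ prim κ v i, Conn κ' (th κ R v + 1) v x) →
          Conn κ' (th κ R v + 1) v (nu κ v (prim κ v i)) := by
        intro i hi hx
        obtain ⟨_, a, ha, hmin⟩ := hnu i (by omega)
        obtain ⟨x', hx', y', hy', hlt⟩ := leave hconn (hvp i)
          (fun hmem => hXR r (hsub i hi hmem) hr)
        have h1 : κ a (nu κ v (prim κ v i)) < th κ R v + 1 := lt_of_le_of_lt (hmin x' hx' y' hy') hlt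
        refine Relation.ReflTransGen.tail (hx a ha) ?_
        show κ' a (nu κ v (prim κ v i)) < th κ R v + 1
        rw [hX a (hsub i hi ha)]
        exact h1
      have hall : ∀ i, i ≤ hit κ R v → ∀ x ∈ prim κ v i, Conn κ' (th κ R v + 1) v x := by
        intro i
        induction i with
        | zero =>
          intro _ x hx
          have : x = v := by
            have h0 : prim κ v 0 = {v} := rfl
            rw [h0] at hx
            simpa using hx
          rw [this]
          exact Relation.ReflTransGen.refl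
        | succ i ih =>
          intro hi x hx
          have h0 : prim κ v (i + 1) = insert (nu κ v (prim κ v i)) (prim κ v i) := rfl
          rw [h0, mem_insert] at hx
          rcases hx with rfl | hx
          · exact hstep i (by omega) (ih (by omega))
          · exact ih (by omega) x hx
      apply Nat.sInf_le
      exact ⟨_, hnuR, hstep _ le_rfl (hall _ le_rfl)⟩
    · obtain ⟨r, hr, hconn⟩ := th_mem κ' R hR v
      obtain ⟨x, hx, y, hy, hlt⟩ := leave hconn hvQ (fun hmem => hQR r hmem hr)
      rw [hX x (hQX hx)] at hlt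
      have := hQout x hx y hy
      omega
  -- the cluster
  have hQ : Qs κ' R v = Qs κ R v := by
    ext x
    constructor
    · intro hx
      have hx' : Conn κ' (th κ' R v) v x := (mem_filter.mp hx).2
      rw [hth] at hx'
      by_contra hcon
      obtain ⟨a, ha, b, hb, hlt⟩ := leave hx' hvQ hcon
      rw [hX a (hQX ha)] at hlt
      have := hQout a ha b hb
      omega
    · intro hx
      have hc := hQconn x hx
      refine mem_filter.mpr ⟨mem_univ _, ?_⟩
      rw [hth]
      refine Relation.ReflTransGen.mono ?_ _ _ hc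
      intro a b hab
      show κ' a b < th κ R v
      rw [hX a (hQX hab.1)]
      exact hab.2.2
  -- the exit pair
  have hext : ext κ' R v = ext κ R v := by
    obtain ⟨_, _, _, _, _, hExit', _, _⟩ := hCLUS N κ' hκ' R hR v hv
    apply hEuniq
    obtain ⟨h1, h2, h3⟩ := hExit'
    rw [hQ] at h1 h2
    rw [hth, hX _ (hQX h1)] at h3
    exact ⟨h1, h2, h3⟩
  refine ⟨hXX, ?_⟩
  have hres : resK κ' (Qs κ R v) = resK κ (Qs κ R v) := by
    funext a b
    unfold resK
    by_cases hab : a ∈ Qs κ R v ∧ b ∈ Qs κ R v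
    · rw [if_pos hab, if_pos hab, hX a (hQX hab.1)]
    · rw [if_neg hab, if_neg hab]
  have hinn : ∀ z, inn κ' (Qs κ R v) z = inn κ (Qs κ R v) z := by
    intro z
    unfold inn
    rw [hres]
  unfold par
  rw [hext, hQ, hinn]

end Pool.Agent.H747.T.PLOC
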