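import Pool.Agent.H699.T.Forest

set_option autoImplicit false
set_option linter.all false

/-! # Prim exploration, first facts (helper935) -/

namespace Pool.Agent.H935.T.PRIM1

open Finset Classical
open Pool.Agent.H699.T

variable {N : ℕ}

theorem isNu_res (κ : Fin N → Fin N → ℕ) (S : Finset (Fin N)) (y : Fin N) :
    IsNu (resR κ S) S y ↔ IsNu κ S y := by
  constructor
  · rintro ⟨h1, x, hx, h⟩
    refine ⟨h1, x, hx, fun x' hx' y' hy' => ?_⟩
    have h2 := h x' hx' y' hy'
    unfold resR at h2
    rw [if_pos hx, if_pos hx'] at h2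
    exact h2
  · rintro ⟨h1, x, hx, h⟩
    refine ⟨h1, x, hx, fun x' hx' y' hy' => ?_⟩
    unfold resR
    rw [if_pos hx, if_pos hx']
    exact h x' hx' y' hy'

theorem exists_isNu (κ : Fin N → Fin N → ℕ) (S : Finset (Fin N)) (hS : S.Nonempty)
    (hS' : S.card < N) : ∃ y, IsNu κ S y := by
  have hne : (univ \ S).Nonempty := by
    rw [← Finset.card_pos, Finset.card_sdiff_of_subset (Finset.subset_univ S), Finset.card_univ,
      Fintype.card_fin]
    omega
  obtain ⟨p, hp, hmin⟩ := Finset.exists_min_image (S ×ˢ (univ \ S)) (fun p => κ p.1 p.2)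
    (hS.product hne)
  rw [Finset.mem_product, Finset.mem_sdiff] at hp
  refine ⟨p.2, hp.2.2, p.1, hp.1, fun x' hx' y' hy' => ?_⟩
  exact hmin (x', y') (by
    rw [Finset.mem_product, Finset.mem_sdiff]
    exact ⟨hx', Finset.mem_univ _, hy'⟩)

theorem isNu_nu (κ : Fin N → Fin N → ℕ) (v : Fin N) (S : Finset (Fin N)) (hS : S.Nonempty)
    (hS' : S.card < N) : IsNu κ S (nu κ v S) := by
  have h : ∃ y, IsNu (resR κ S) S y := by
    obtain ⟨y, hy⟩ := exists_isNu κ S hS hS'
    exact ⟨y, (isNu_res κ S y).2 hy⟩
  unfold nu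
  rw [dif_pos h]
  exact (isNu_res κ S _).1 (Classical.choose_spec h)

theorem mem_prim (κ : Fin N → Fin N → ℕ) (v : Fin N) (i : ℕ) : v ∈ prim κ v i := by
  induction i with
  | zero => exact Finset.mem_singleton_self v
  | succ i ih => exact Finset.mem_insert_of_mem ih

theorem card_prim (κ : Fin N → Fin N → ℕ) (v : Fin N) (i : ℕ) (hi : i < N) :
    (prim κ v i).card = i + 1 := by
  induction i with
  | zero => exact Finset.card_singleton v
  | succ i ih =>
    have h1 := ih (by omega)
    have h2 := isNu_nu κ v (prim κ v i) ⟨v, mem_prim κ v i⟩ (by omega)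
    show (insert (nu κ v (prim κ v i)) (prim κ v i)).card = i + 1 + 1
    rw [Finset.card_insert_of_notMem h2.1, h1]

theorem t_PRIM1 : S_PRIM1 := by
  intro N κ _ v
  refine ⟨mem_prim κ v, ?_, card_prim κ v, ?_, ?_⟩
  · intro i j hij
    induction j, hij using Nat.le_induction with
    | base => exact Finset.Subset.refl _
    | succ j _ ih => exact ih.trans (Finset.subset_insert _ _)
  · intro i hi
    exact isNu_nu κ v (prim κ v i) ⟨v, mem_prim κ v i⟩ (by rw [card_prim κ v i (by omega)]; exact hi)
  · intro S κ' h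
    have h1 : resR κ' S = resR κ S := by
      funext a b
      unfold resR
      by_cases ha : a ∈ S
      · rw [if_pos ha, if_pos ha, h a ha b]
      · rw [if_neg ha, if_neg ha]
    unfold nu
    rw [h1]

theorem aux_lt (x y : Fin N) : ((min x y : Fin N) : ℕ) * N + ((max x y : Fin N) : ℕ) < N * N := by
  have h1 := (min x y).2
  have h2 := (max x y).2
  nlinarith

theorem t_KEY : S_KEY := by
  intro N d hd
  refine ⟨⟨?_, ?_, ?_⟩, ?_⟩
  · intro x y
    unfold key
    by_cases h : x = y
    · rw [h]
    · rw [if_neg h, if_neg (Ne.symm h), hd x y, min_comm, max_comm]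
  · intro x
    unfold key
    rw [if_pos rfl]
  · intro x y x' y' h h' he
    unfold key at he
    rw [if_neg h, if_neg h'] at he
    have h1 := aux_lt x y
    have h2 := aux_lt x' y'
    have hmod : ∀ a b c : ℕ, b * N + c < N * N → (a * (N * N) + b * N + c) % (N * N) = b * N + c := by
      intro a b c hbc
      rw [add_assoc, Nat.mul_comm a, Nat.mul_add_mod, Nat.mod_eq_of_lt hbc]
    have h3 : ((min x y : Fin N) : ℕ) * N + ((max x y : Fin N) : ℕ) =
        ((min x' y' : Fin N) : ℕ) * N + ((max x' y' : Fin N) : ℕ) := by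
      rw [← hmod (d x y) _ _ h1, he, hmod (d x' y') _ _ h2]
    have hmod2 : ∀ a b : ℕ, b < N → (a * N + b) % N = b := by
      intro a b hb
      rw [Nat.mul_comm a, Nat.mul_add_mod, Nat.mod_eq_of_lt hb]
    have h4 : ((max x y : Fin N) : ℕ) = ((max x' y' : Fin N) : ℕ) := by
      rw [← hmod2 ((min x y : Fin N) : ℕ) _ (max x y).2, h3, hmod2 _ _ (max x' y').2]
    have hN : 0 < N := lt_of_le_of_lt (Nat.zero_le _) x.2
    have h5 : ((min x y : Fin N) : ℕ) = ((min x' y' : Fin N) : ℕ) := by
      rw [h4] at h3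
      have h6 := Nat.add_right_cancel h3
      exact Nat.eq_of_mul_eq_mul_right hN h6
    have h6 : max x y = max x' y' := Fin.ext h4
    have h7 : min x y = min x' y' := Fin.ext h5
    rcases le_total x y with a | a <;> rcases le_total x' y' with b | b
    · rw [max_eq_right a, max_eq_right b] at h6
      rw [min_eq_left a, min_eq_left b] at h7
      exact Or.inl ⟨h7, h6⟩
    · rw [max_eq_right a, max_eq_left b] at h6
      rw [min_eq_left a, min_eq_right b] at h7
      exact Or.inr ⟨h7, h6⟩
    · rw [max_eq_left a, max_eq_right b] at h6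
      rw [min_eq_right a, min_eq_left b] at h7
      exact Or.inr ⟨h6, h7⟩
    · rw [max_eq_left a, max_eq_left b] at h6
      rw [min_eq_right a, min_eq_right b] at h7
      exact Or.inl ⟨h6, h7⟩
  · intro x y t hxy
    unfold key
    rw [if_neg hxy]
    have h1 := aux_lt x y
    constructor
    · intro h
      by_contra hc
      push Not at hc
      have h2 : (t + 1) * (N * N) ≤ d x y * (N * N) := Nat.mul_le_mul_right _ hc
      omega
    · intro h
      have h2 : d x y * (N * N) ≤ t * (N * N) := Nat.mul_le_mul_right _ h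
      have h3 : (t + 1) * (N * N) = t * (N * N) + N * N := by ring
      omega

end Pool.Agent.H935.T.PRIM1
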