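import Pool.Agent.H699.T.Forest

/-!
# Prim's exploration, the clusters and the root set (tasks PRIM2, PRIM3 of helper699, by helper996)
-/

set_option autoImplicit false

namespace Pool.Agent.H996.T.PRIM2

open Finset Classical
open Pool.Agent.H699.T

variable {N : ℕ}

theorem nu_unique {κ : Fin N → Fin N → ℕ} (hκ : IsKey κ) {S : Finset (Fin N)} {y y' : Fin N}
    (h : IsNu κ S y) (h' : IsNu κ S y') : y = y' := by
  obtain ⟨hy, x, hx, hm⟩ := h
  obtain ⟨hy', x', hx', hm'⟩ := h'
  have e : κ x y = κ x' y' := le_antisymm (hm x' hx' y' hy') (hm' x hx y hy)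
  rcases hκ.inj x y x' y' (fun h => hy (h ▸ hx)) (fun h => hy' (h ▸ hx')) e with h | h
  · exact h.2
  · exact absurd (h.1 ▸ hx) hy'

theorem cross {α : Type} {r : α → α → Prop} {a b : α} (h : Relation.ReflTransGen r a b)
    (S : α → Prop) (ha : S a) (hb : ¬ S b) : ∃ c d, r c d ∧ S c ∧ ¬ S d := by
  induction h with
  | refl => exact absurd ha hb
  | @tail b c hab hbc ih =>
    by_cases h1 : S b
    · exact ⟨b, c, hbc, h1, hb⟩
    · exact ih h1

theorem th_spec (κ : Fin N → Fin N → ℕ) {R : Finset (Fin N)} (hR : R.Nonempty) (v : Fin N) :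
    ∃ r ∈ R, Conn κ (th κ R v + 1) v r := by
  have : (sInf {t | ∃ r ∈ R, Conn κ (t + 1) v r}) ∈ {t | ∃ r ∈ R, Conn κ (t + 1) v r} := by
    apply Nat.sInf_mem
    obtain ⟨r, hr⟩ := hR
    exact ⟨κ v r, r, hr, Relation.ReflTransGen.single (Nat.lt_succ_self _)⟩
  exact this

theorem base (h1 : S_PRIM1) {κ : Fin N → Fin N → ℕ} (hκ : IsKey κ) {R : Finset (Fin N)}
    (hR : R.Nonempty) {v : Fin N} (hv : v ∉ R) :
    hit κ R v + 1 < N ∧ nu κ v (prim κ v (hit κ R v)) ∈ R ∧
    (∀ j, j < hit κ R v → nu κ v (prim κ v j) ∉ R) ∧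
    (∀ j, j ≤ hit κ R v → ∀ x ∈ prim κ v j, x ∉ R) := by
  obtain ⟨p1, p2, p3, p4, p5⟩ := h1 N κ hκ v
  have hav : ∀ n, (∀ i, i < n → nu κ v (prim κ v i) ∉ R) → ∀ i, i ≤ n → ∀ x ∈ prim κ v i, x ∉ R := by
    intro n hn i
    induction i with
    | zero =>
      intro _ x hx
      have : x = v := Finset.mem_singleton.1 hx
      rw [this]
      exact hv
    | succ i ih =>
      intro hi x hx
      have : x = nu κ v (prim κ v i) ∨ x ∈ prim κ v i := Finset.mem_insert.1 hx
      rcases this with h | h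
      · rw [h]
        exact hn i (by omega)
      · exact ih (by omega) x h
  have hex : ∃ i, i + 1 < N ∧ nu κ v (prim κ v i) ∈ R := by
    by_contra hcon
    have hN : 0 < N := lt_of_le_of_lt (Nat.zero_le _) v.2
    have h2 := hav (N - 1) (fun i hi h => hcon ⟨i, by omega, h⟩) (N - 1) le_rfl
    have hc := p3 (N - 1) (by omega)
    have hu : prim κ v (N - 1) = univ := by
      apply Finset.eq_univ_of_card
      rw [hc, Fintype.card_fin]
      omega
    obtain ⟨r, hr⟩ := hR
    exact h2 r (by rw [hu]; exact mem_univ _) hr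
  obtain ⟨i0, hi0, hi1⟩ := hex
  have hmem : hit κ R v ∈ {i | nu κ v (prim κ v i) ∈ R} := Nat.sInf_mem ⟨i0, hi1⟩
  have hle : hit κ R v ≤ i0 := Nat.sInf_le hi1
  have hlt : ∀ j, j < hit κ R v → nu κ v (prim κ v j) ∉ R := fun j hj => Nat.notMem_of_lt_sInf hj
  exact ⟨by omega, hmem, hlt, hav _ hlt⟩

theorem hit_eq {κ : Fin N → Fin N → ℕ} {R : Finset (Fin N)} {v : Fin N} {n : ℕ}
    (h : nu κ v (prim κ v n) ∈ R) (h' : ∀ i, i < n → nu κ v (prim κ v i) ∉ R) :
    hit κ R v = n := by
  apply le_antisymm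
  · exact Nat.sInf_le h
  · by_contra hcon
    have h2 : hit κ R v ∈ {i | nu κ v (prim κ v i) ∈ R} := Nat.sInf_mem ⟨n, h⟩
    exact h' _ (not_le.1 hcon) h2

theorem stepQ (h0 : S_CLUS) (h1 : S_PRIM1) {κ : Fin N → Fin N → ℕ} (hκ : IsKey κ)
    {R : Finset (Fin N)} (hR : R.Nonempty) {v : Fin N} (hv : v ∉ R) {i : ℕ}
    (hi : i + 1 < (Qs κ R v).card) (hs : prim κ v i ⊆ Qs κ R v) :
    nu κ v (prim κ v i) ∈ Qs κ R v := by
  obtain ⟨c1, c2, c3, c4, c5, c6, c7, c8⟩ := h0 N κ hκ R hR v hv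
  obtain ⟨p1, p2, p3, p4, p5⟩ := h1 N κ hκ v
  have hN : (Qs κ R v).card ≤ N := by
    have := Finset.card_le_univ (Qs κ R v)
    rwa [Fintype.card_fin] at this
  obtain ⟨hy, x, hx, hm⟩ := p4 i (by omega)
  obtain ⟨z, hz, hz'⟩ := Finset.exists_mem_notMem_of_card_lt_card
    (s := prim κ v i) (t := Qs κ R v) (by rw [p3 i (by omega)]; exact hi)
  obtain ⟨a, b, ⟨ha, hb, hab⟩, ha', hb'⟩ := cross (c5 z hz) (fun w => w ∈ prim κ v i) (p1 i) hz'
  by_contra hcon
  have h2 := c4 x (hs hx) _ hcon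
  have h3 := hm a ha' b hb'
  omega

theorem primQ (h0 : S_CLUS) (h1 : S_PRIM1) {κ : Fin N → Fin N → ℕ} (hκ : IsKey κ)
    {R : Finset (Fin N)} (hR : R.Nonempty) {v : Fin N} (hv : v ∉ R) :
    ∃ q : ℕ, (Qs κ R v).card = q + 1 ∧ q + 1 < N ∧ prim κ v q = Qs κ R v ∧
      nu κ v (prim κ v q) = (ext κ R v).2 ∧ ∀ i, i < q → nu κ v (prim κ v i) ∉ R := by
  obtain ⟨c1, c2, c3, c4, c5, c6, c7, c8⟩ := h0 N κ hκ R hR v hv
  obtain ⟨p1, p2, p3, p4, p5⟩ := h1 N κ hκ v
  have hpos : 0 < (Qs κ R v).card := Finset.card_pos.2 ⟨v, c2⟩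
  have hN : (Qs κ R v).card < N := by
    obtain ⟨r, hr⟩ := hR
    have := Finset.card_lt_univ_of_notMem (s := Qs κ R v) (fun h => c1 r h hr)
    rwa [Fintype.card_fin] at this
  have hs : ∀ i, i < (Qs κ R v).card → prim κ v i ⊆ Qs κ R v := by
    intro i
    induction i with
    | zero =>
      intro _ x hx
      have : x = v := Finset.mem_singleton.1 hx
      rw [this]
      exact c2
    | succ i ih =>
      intro hi x hx
      have : x = nu κ v (prim κ v i) ∨ x ∈ prim κ v i := Finset.mem_insert.1 hx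
      rcases this with h | h
      · rw [h]
        exact stepQ h0 h1 hκ hR hv hi (ih (by omega))
      · exact ih (by omega) h
  have hq : prim κ v ((Qs κ R v).card - 1) = Qs κ R v := by
    apply Finset.eq_of_subset_of_card_le (hs _ (by omega))
    rw [p3 _ (by omega)]
    omega
  refine ⟨(Qs κ R v).card - 1, by omega, by omega, hq, ?_, ?_⟩
  · have h2 := p4 ((Qs κ R v).card - 1) (by omega)
    have h3 : IsNu κ (prim κ v ((Qs κ R v).card - 1)) (ext κ R v).2 := by
      rw [hq]
      refine ⟨c6.2.1, (ext κ R v).1, c6.1, fun x' hx' y' hy' => ?_⟩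
      rw [c6.2.2]
      exact c4 x' hx' y' hy'
    exact nu_unique hκ h2 h3
  · intro i hi
    exact c1 _ (stepQ h0 h1 hκ hR hv (by omega) (hs i (by omega)))

/-- the explored set is the cluster, followed by the explored set of the exit -/
theorem X_eq (h0 : S_CLUS) (h1 : S_PRIM1) {κ : Fin N → Fin N → ℕ} (hκ : IsKey κ)
    {R : Finset (Fin N)} (hR : R.Nonempty) {v : Fin N} (hv : v ∉ R) :
    ((ext κ R v).2 ∈ R → X κ R v = Qs κ R v) ∧
    ((ext κ R v).2 ∉ R → X κ R v = Qs κ R v ∪ X κ R (ext κ R v).2) := by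
  obtain ⟨c1, c2, c3, c4, c5, c6, c7, c8⟩ := h0 N κ hκ R hR v hv
  obtain ⟨q, hq1, hq2, hq3, hq4, hq5⟩ := primQ h0 h1 hκ hR hv
  obtain ⟨p1, p2, p3, p4, p5⟩ := h1 N κ hκ v
  refine ⟨fun hy => ?_, fun hy => ?_⟩
  · have h2 : hit κ R v = q := hit_eq (by rw [hq4]; exact hy) hq5
    unfold X
    rw [h2, hq3]
  · have hth : th κ R (ext κ R v).2 < th κ R v := by
      rcases c8 with h | h
      · exact absurd h hy
      · exact h
    have hyQ : (ext κ R v).2 ∉ Qs κ R v := c6.2.1
    generalize (ext κ R v).2 = y at *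
    obtain ⟨b1, b2, b3, b4⟩ := base h1 hκ hR hy
    obtain ⟨p1', p2', p3', p4', p5'⟩ := h1 N κ hκ y
    -- the cheapest edges agree
    have key : ∀ j, j ≤ hit κ R y → prim κ v (q + 1 + j) = Qs κ R v ∪ prim κ y j →
        (∀ x ∈ prim κ y j, x ∉ Qs κ R v) →
        nu κ v (prim κ v (q + 1 + j)) = nu κ y (prim κ y j) ∧ nu κ y (prim κ y j) ∉ Qs κ R v := by
      intro j hj e hd
      obtain ⟨hz, x, hx, hm⟩ := p4' j (by omega)
      obtain ⟨r, hr, hcon⟩ := th_spec κ hR y
      obtain ⟨a, b, hab, ha', hb'⟩ := cross hcon (fun w => w ∈ prim κ y j) (p1' j)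
        (fun h => b4 j hj r h hr)
      have hab2 : κ a b < th κ R y + 1 := hab
      have hxz : κ x (nu κ y (prim κ y j)) < th κ R v := by
        have := hm a ha' b hb'
        omega
      have hzQ : nu κ y (prim κ y j) ∉ Qs κ R v := by
        intro hcq
        have h2 := c4 _ hcq x (hd x hx)
        rw [hκ.symm] at h2
        omega
      refine ⟨?_, hzQ⟩
      have hcard : (Qs κ R v ∪ prim κ y j).card = q + 1 + (j + 1) := by
        rw [Finset.card_union_of_disjoint, hq1, p3' j (by omega)]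
        rw [Finset.disjoint_left]
        intro w hw hw'
        exact hd w hw' hw
      have hcN : q + 1 + (j + 1) < N := by
        rw [← hcard]
        have := Finset.card_lt_univ_of_notMem (s := Qs κ R v ∪ prim κ y j) (x := r) (by
          intro h
          rcases Finset.mem_union.1 h with h | h
          · exact c1 r h hr
          · exact b4 j hj r h hr)
        rwa [Fintype.card_fin] at this
      have h3 := p4 (q + 1 + j) (by omega)
      have h4 : IsNu κ (prim κ v (q + 1 + j)) (nu κ y (prim κ y j)) := by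
        rw [e]
        refine ⟨?_, x, Finset.mem_union_right _ hx, ?_⟩
        · intro h
          rcases Finset.mem_union.1 h with h | h
          · exact hzQ h
          · exact hz h
        · intro x' hx' y' hy'
          rcases Finset.mem_union.1 hx' with h | h
          · have := c4 x' h y' (fun h5 => hy' (Finset.mem_union_left _ h5))
            omega
          · exact hm x' h y' (fun h5 => hy' (Finset.mem_union_right _ h5))
      exact nu_unique hκ h3 h4
    have main : ∀ j, j ≤ hit κ R y → prim κ v (q + 1 + j) = Qs κ R v ∪ prim κ y j ∧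
        (∀ x ∈ prim κ y j, x ∉ Qs κ R v) := by
      intro j
      induction j with
      | zero =>
        intro _
        constructor
        · show insert (nu κ v (prim κ v q)) (prim κ v q) = _ ∪ {y}
          rw [hq4, hq3, Finset.union_comm, Finset.insert_eq]
        · intro x hx
          have : x = y := Finset.mem_singleton.1 hx
          rw [this]
          exact hyQ
      | succ j ih =>
        intro hj
        obtain ⟨ih1, ih2⟩ := ih (by omega)
        obtain ⟨k1, k2⟩ := key j (by omega) ih1 ih2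
        constructor
        · show insert (nu κ v (prim κ v (q + 1 + j))) (prim κ v (q + 1 + j)) =
            _ ∪ insert (nu κ y (prim κ y j)) (prim κ y j)
          rw [k1, ih1, Finset.union_insert]
        · intro x hx
          have : x = nu κ y (prim κ y j) ∨ x ∈ prim κ y j := Finset.mem_insert.1 hx
          rcases this with h | h
          · rw [h]
            exact k2
          · exact ih2 x h
    have hh : hit κ R v = q + 1 + hit κ R y := by
      apply hit_eq
      · obtain ⟨m1, m2⟩ := main _ le_rfl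
        rw [(key _ le_rfl m1 m2).1]
        exact b2
      · intro i hi
        rcases lt_trichotomy i q with h | h | h
        · exact hq5 i h
        · rw [h, hq4]
          exact hy
        · obtain ⟨j, rfl⟩ := Nat.exists_eq_add_of_lt h
          have e : q + j + 1 = q + 1 + j := by omega
          rw [e] at hi ⊢
          obtain ⟨m1, m2⟩ := main j (by omega)
          rw [(key j (by omega) m1 m2).1]
          exact b3 j (by omega)
    unfold X
    rw [hh]
    exact (main _ le_rfl).1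

theorem t_PRIM2 : S_CLUS → S_PRIM1 → S_PRIM2 := by
  intro h0 h1 N κ hκ R hR v hv
  obtain ⟨b1, b2, b3, b4⟩ := base h1 hκ hR hv
  obtain ⟨c1, c2, c3, c4, c5, c6, c7, c8⟩ := h0 N κ hκ R hR v hv
  obtain ⟨x1, x2⟩ := X_eq h0 h1 hκ hR hv
  refine ⟨b4 _ le_rfl, b2, b1, (h1 N κ hκ v).2.2.1 _ (by omega), ?_, ?_, ?_⟩
  · by_cases h : (ext κ R v).2 ∈ R
    · rw [x1 h]
    · rw [x2 h]
      exact Finset.subset_union_left
  · by_cases h : (ext κ R v).2 ∈ R
    · exact Or.inl h
    · exact Or.inr (x2 h)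
  · intro x hx
    obtain ⟨x3, x4⟩ := X_eq h0 h1 hκ hR (c1 x hx)
    obtain ⟨c9, c10, c11⟩ := c3 x hx
    rw [c11, c10] at x3 x4
    by_cases h : (ext κ R v).2 ∈ R
    · rw [x1 h, x3 h]
    · rw [x2 h, x4 h]

theorem t_PRIM3 : S_CLUS → S_PAR → S_PRIM1 → S_PRIM2 → S_PRIM3 := by
  intro h0 hP h1 h2 N κ hκ R hR v hv hp
  obtain ⟨a1, a2, a3, a4, a5, a6, a7⟩ := h2 N κ hκ R hR v hv
  obtain ⟨d1, d2, d3, d4, d5, d6, d7⟩ := h2 N κ hκ R hR _ hp
  have hmain : par κ R v ∈ X κ R v ∧ X κ R (par κ R v) ⊆ X κ R v := by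
    rcases (hP N κ hκ R hR).2.2.2 v hv with h | ⟨h, h'⟩
    · refine ⟨a5 h, ?_⟩
      rw [a7 _ h]
    · rcases a6 with h3 | h3
      · rw [h'] at hp
        exact absurd h3 hp
      · rw [h3, ← h']
        refine ⟨Finset.mem_union_right _ ((h1 N κ hκ (par κ R v)).1 _),
          Finset.subset_union_right⟩
  refine ⟨hmain.1, hmain.2, ?_⟩
  intro L hL hbad
  apply hL
  intro i hi hc
  have h3 : hit κ R v ≤ i := Nat.sInf_le hc
  have h4 := Finset.card_le_card hmain.2
  rw [a4, d4] at h4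
  exact hbad (hit κ R (par κ R v)) (by omega) d2

end Pool.Agent.H996.T.PRIM2
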