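import Pool.Agent.H699.T.Unit

/-!
# Project TSP, job ST3: the sparse stage
-/

set_option autoImplicit false
set_option linter.unusedSectionVars false

namespace Pool.Agent.H79.T.ST3

open Finset Classical Pool.Agent.H699.T

variable {N : ℕ}

theorem grd_spec (hG : S_GRD) (s : US N) (P : Finset (Fin N × Fin N)) (S : Finset (Fin N)) :
    s.IsGrd P S (s.grd P S) := by
  have h : ∃ Nw, s.IsGrd P S Nw := by
    obtain ⟨Nw, h1, h2, h3, h4⟩ := hG (Fin N) (Fin N × Fin N) s.w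
      (fun e => symmDiff (s.ch e.1) (s.ch e.2)) (fun e => s.d e.1 e.2) P S
    refine ⟨Nw, h1, ?_, ?_, ?_⟩
    · convert h2
    · intro e he
      have := h3 e he
      unfold US.cw
      convert this
    · intro Z hZ
      have := h4 Z (fun e he => by
        have := hZ e he
        unfold US.cw at this
        convert this)
      convert this
  unfold US.grd
  rw [dif_pos h]
  exact Classical.choose_spec h

theorem cw_res (s : US N) {W : Finset (Fin N)} (hW : ∀ x ∈ W, s.ch x ⊆ W) (Z : Finset (Fin N))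
    {x y : Fin N} (hx : x ∈ W) (hy : y ∈ W) : (s.res W).cw Z x y = s.cw Z x y := by
  unfold US.cw US.res
  simp only [if_pos hx, if_pos hy]
  refine Finset.sum_congr rfl fun v hv => ?_
  rw [if_pos]
  rw [Finset.mem_sdiff, Finset.mem_symmDiff] at hv
  rcases hv.1 with h | h
  · exact hW x hx h.1
  · exact hW y hy h.1

theorem gr_spec (hG : S_GRD) (s : US N) (W S : Finset (Fin N)) (hW : ∀ x ∈ W, s.ch x ⊆ W) :
    Disjoint (s.gr W S) S ∧ s.gr W S ⊆ W ∧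
    (∀ x ∈ W, ∀ y ∈ W, 2 * s.cw (S ∪ s.gr W S) x y ≤ 3 * s.d x y) ∧
    ∀ Z : Finset (Fin N), (∀ x ∈ W, ∀ y ∈ W, 4 * s.cw Z x y ≤ 5 * s.d x y) →
      ∑ v ∈ s.gr W S, s.w v ≤ 6 * ∑ v ∈ s.gr W S ∩ Z, s.w v := by
  obtain ⟨h1, h2, h3, h4⟩ := grd_spec hG (s.res W) (W ×ˢ W) S
  change Disjoint (s.gr W S) S at h1
  change s.gr W S ⊆ _ at h2
  have hsub : s.gr W S ⊆ W := by
    intro v hv
    have := h2 hv
    rw [Finset.mem_biUnion] at this
    obtain ⟨e, he, hv⟩ := this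
    rw [Finset.mem_product] at he
    rw [Finset.mem_symmDiff] at hv
    unfold US.res at hv
    simp only [if_pos he.1, if_pos he.2] at hv
    rcases hv with h | h
    · exact hW _ he.1 h.1
    · exact hW _ he.2 h.1
  have hd : ∀ x ∈ W, ∀ y ∈ W, (s.res W).d x y = s.d x y := by
    intro x hx y hy
    unfold US.res
    simp only [if_pos (And.intro hx hy)]
  have hw : ∀ A ⊆ W, ∑ v ∈ A, (s.res W).w v = ∑ v ∈ A, s.w v := by
    intro A hA
    refine Finset.sum_congr rfl fun v hv => ?_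
    unfold US.res
    simp only [if_pos (hA hv)]
  refine ⟨h1, hsub, fun x hx y hy => ?_, fun Z hZ => ?_⟩
  · have := h3 (x, y) (Finset.mem_product.mpr ⟨hx, hy⟩)
    rw [hd x hx y hy, cw_res s hW _ hx hy] at this
    exact this
  · have := h4 Z (fun e he => by
      rw [Finset.mem_product] at he
      rw [hd _ he.1 _ he.2, cw_res s hW _ he.1 he.2]
      exact hZ _ he.1 _ he.2)
    change ∑ v ∈ s.gr W S, (s.res W).w v ≤ 6 * ∑ v ∈ s.gr W S ∩ Z, (s.res W).w v at this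
    rw [hw _ hsub, hw _ (Finset.inter_subset_left.trans hsub)] at this
    exact this

section mates

variable (s : US N) (c1 c2 : Fin N → ℕ) (Δ2 : ℕ) {Q : ℕ} (χ : Fin N → Fin Q)

theorem nbr_symm (hd : ∀ x y, s.d x y = s.d y x) {l l' : Fin N}
    (h : l' ∈ s.nbr c1 c2 Δ2 l) : l ∈ s.nbr c1 c2 Δ2 l' := by
  unfold US.nbr at h ⊢
  rw [Finset.mem_filter] at h ⊢
  obtain ⟨-, h1, h2, h3, x, hx, y, hy, h4⟩ := h
  refine ⟨Finset.mem_univ _, h1.symm, h3, h2, y, hy, x, hx, ?_⟩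
  rw [hd y x, add_comm]
  exact h4

theorem nbr_ne {l l' : Fin N} (h : l' ∈ s.nbr c1 c2 Δ2 l) : l' ≠ l := by
  unfold US.nbr at h
  rw [Finset.mem_filter] at h
  exact h.2.1

theorem mate_unique {r : ℕ} {l l' l'' : Fin N} (h' : s.IsMate c1 c2 Δ2 χ r l l')
    (h'' : s.IsMate c1 c2 Δ2 χ r l l'') : l' = l'' := by
  obtain ⟨n1, g1, g2, e1⟩ := h'
  obtain ⟨n2, -, g3, e2⟩ := h''
  have hc := g1.2
  unfold US.conf at hc
  push Not at hc
  by_contra hne
  rcases e1 with ⟨a, b⟩ | ⟨a, b⟩ <;> rcases e2 with ⟨a', b'⟩ | ⟨a', b'⟩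
  · exact hc.2 l' n1 l'' n2 hne (Fin.ext (by omega))
  · exact hc.1 l'' n2 (Fin.ext (by omega))
  · exact hc.1 l' n1 (Fin.ext (by omega))
  · exact hc.2 l' n1 l'' n2 hne (Fin.ext (by omega))

theorem mate_symm (hd : ∀ x y, s.d x y = s.d y x) {r : ℕ} {l l' : Fin N}
    (h' : s.IsMate c1 c2 Δ2 χ r l l') : s.IsMate c1 c2 Δ2 χ r l' l := by
  obtain ⟨n1, g1, g2, e1⟩ := h'
  refine ⟨nbr_symm s c1 c2 Δ2 hd n1, g2, g1, ?_⟩
  rcases e1 with ⟨a, b⟩ | ⟨a, b⟩
  · exact Or.inr ⟨b, a⟩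
  · exact Or.inl ⟨b, a⟩

theorem mate_eq {r : ℕ} {l l' : Fin N} (h' : s.IsMate c1 c2 Δ2 χ r l l') :
    s.mate c1 c2 Δ2 χ r l = l' := by
  have h : ∃ l', s.IsMate c1 c2 Δ2 χ r l l' := ⟨l', h'⟩
  unfold US.mate
  rw [dif_pos h]
  exact mate_unique s c1 c2 Δ2 χ (Classical.choose_spec h) h'

theorem mate_cases (r : ℕ) (l : Fin N) : s.mate c1 c2 Δ2 χ r l = l ∨
    s.IsMate c1 c2 Δ2 χ r l (s.mate c1 c2 Δ2 χ r l) := by
  by_cases h : ∃ l', s.IsMate c1 c2 Δ2 χ r l l'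
  · right
    unfold US.mate
    rw [dif_pos h]
    exact Classical.choose_spec h
  · left
    unfold US.mate
    rw [dif_neg h]

theorem mate_mate (hd : ∀ x y, s.d x y = s.d y x) (r : ℕ) (l : Fin N) :
    s.mate c1 c2 Δ2 χ r (s.mate c1 c2 Δ2 χ r l) = l := by
  rcases mate_cases s c1 c2 Δ2 χ r l with h | h
  · rw [h, h]
  · exact mate_eq s c1 c2 Δ2 χ (mate_symm s c1 c2 Δ2 χ hd h)

theorem mate_good (r : ℕ) (l : Fin N) (hl : s.good c1 c2 Δ2 χ l) :
    s.good c1 c2 Δ2 χ (s.mate c1 c2 Δ2 χ r l) := by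
  rcases mate_cases s c1 c2 Δ2 χ r l with h | h
  · rw [h]
    exact hl
  · exact h.2.2.1

end mates

theorem mem_un {s : US N} {l x : Fin N} : x ∈ s.un l ↔ x ∈ s.V0 ∧ s.top x = l := by
  unfold US.un
  rw [Finset.mem_filter]

theorem un_disj (s : US N) {l l' : Fin N} (h : l ≠ l') : Disjoint (s.un l) (s.un l') := by
  rw [Finset.disjoint_left]
  intro x hx hx'
  exact h ((mem_un.mp hx).2.symm.trans (mem_un.mp hx').2)

section main

variable (hG : S_GRD) (hU : S_USB) (s : US N) {k M Kp : ℕ} (hs : s.Ok k M Kp)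
  (c1 c2 : Fin N → ℕ) (Δ2 : ℕ) {Q : ℕ} (χ : Fin N → Fin Q)

include hU hs in
theorem ch_un {l x : Fin N} (hx : x ∈ s.un l) : s.ch x ⊆ s.un l :=
  (hU N s k M Kp hs).2.2.2.1 l x hx

include hU hs in
theorem piZ_un (c : Fin N → ℕ) (l : Fin N) : s.piZ c l ⊆ s.un l :=
  (hU N s k M Kp hs).2.2.1 c l

include hU hs in
theorem ch_un2 {l l' : Fin N} : ∀ x ∈ s.un l ∪ s.un l', s.ch x ⊆ s.un l ∪ s.un l' := by
  intro x hx
  rw [Finset.mem_union] at hx
  rcases hx with hx | hx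
  · exact (ch_un hU s hs hx).trans Finset.subset_union_left
  · exact (ch_un hU s hs hx).trans Finset.subset_union_right

include hG hU hs in
theorem st_un (r : ℕ) (l : Fin N) : s.st c1 c2 Δ2 χ r l ⊆ s.un l := by
  induction r generalizing l with
  | zero =>
    unfold US.st
    refine Finset.union_subset (piZ_un hU s hs _ l) ?_
    exact (gr_spec hG s (s.un l) _ (fun x hx => ch_un hU s hs hx)).2.1
  | succ r ih =>
    unfold US.st
    refine Finset.union_subset (ih l) ?_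
    split_ifs
    · exact Finset.empty_subset _
    · exact Finset.inter_subset_right

theorem st_mono1 (r : ℕ) (l : Fin N) : s.st c1 c2 Δ2 χ r l ⊆ s.st c1 c2 Δ2 χ (r + 1) l := by
  conv_rhs => unfold US.st
  exact Finset.subset_union_left

theorem st_mono {r r' : ℕ} (h : r ≤ r') (l : Fin N) :
    s.st c1 c2 Δ2 χ r l ⊆ s.st c1 c2 Δ2 χ r' l := by
  induction h with
  | refl => exact Finset.Subset.refl _
  | step _ ih => exact ih.trans (st_mono1 s c1 c2 Δ2 χ _ l)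

theorem piZ_st (r : ℕ) (l : Fin N) : s.piZ (fun y => min (c1 y) (c2 y)) l ⊆
    s.st c1 c2 Δ2 χ r l := by
  refine Finset.Subset.trans ?_ (st_mono s c1 c2 Δ2 χ (Nat.zero_le r) l)
  unfold US.st
  exact Finset.subset_union_left

include hU hs in
theorem not_Zf {l : Fin N} (hl : s.good c1 c2 Δ2 χ l) {v : Fin N} (hv : v ∈ s.un l)
    (h : v ∉ s.Zf c1 c2 Δ2 χ) {r : ℕ} (hr : r ≤ Q * Q) : v ∉ s.st c1 c2 Δ2 χ r l := by
  intro h1
  apply h
  obtain ⟨a, b⟩ := mem_un.mp hv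
  unfold US.Zf US.XX
  rw [Finset.mem_filter, Finset.mem_filter]
  refine ⟨⟨a, ?_⟩, ?_⟩
  · rw [b]
    exact hl
  · rw [b]
    exact st_mono s c1 c2 Δ2 χ hr l h1

include hG hU hs in
theorem part1 : ∀ x ∈ s.XX c1 c2 Δ2 χ, ∀ y ∈ s.XX c1 c2 Δ2 χ,
    2 * s.cw (s.Zf c1 c2 Δ2 χ) x y ≤ 3 * s.d x y := by
  intro x hx y hy
  unfold US.XX at hx hy
  rw [Finset.mem_filter] at hx hy
  obtain ⟨hx, gx⟩ := hx
  obtain ⟨hy, gy⟩ := hy
  have hxu : x ∈ s.un (s.top x) := mem_un.mpr ⟨hx, rfl⟩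
  have hyu : y ∈ s.un (s.top y) := mem_un.mpr ⟨hy, rfl⟩
  generalize hl : s.top x = l at *
  generalize hl' : s.top y = l' at *
  have cx := ch_un hU s hs hxu
  have cy := ch_un hU s hs hyu
  by_cases e : l = l'
  · subst e
    have h0 := (gr_spec hG s (s.un l) (s.piZ (fun y => min (c1 y) (c2 y)) l)
      (fun x hx => ch_un hU s hs hx)).2.2.1 x hxu y hyu
    refine le_trans (Nat.mul_le_mul_left 2 ?_) h0
    unfold US.cw
    refine Finset.sum_le_sum_of_subset fun v hv => ?_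
    rw [Finset.mem_sdiff] at hv ⊢
    refine ⟨hv.1, ?_⟩
    have hvu : v ∈ s.un l := by
      rw [Finset.mem_symmDiff] at hv
      rcases hv.1 with h | h
      · exact cx h.1
      · exact cy h.1
    have := not_Zf hU s hs c1 c2 Δ2 χ gx hvu hv.2 (Nat.zero_le _)
    unfold US.st at this
    exact this
  · by_cases hn : l' ∈ s.nbr c1 c2 Δ2 l
    · -- matched in the round `r`
      have hQ : 0 < Q := (χ l).pos
      obtain ⟨r, hr⟩ : ∃ r, r = (χ l : ℕ) * Q + (χ l' : ℕ) := ⟨_, rfl⟩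
      have r1 : r / Q = (χ l : ℕ) := by
        rw [hr, mul_comm, Nat.mul_add_div hQ, Nat.div_eq_of_lt (χ l').2, add_zero]
      have r2 : r % Q = (χ l' : ℕ) := by
        rw [hr, mul_comm, Nat.mul_add_mod, Nat.mod_eq_of_lt (χ l').2]
      have r3 : r < Q * Q := by
        have h1 : (χ l : ℕ) + 1 ≤ Q := (χ l).2
        have h2 : (χ l' : ℕ) < Q := (χ l').2
        calc r = (χ l : ℕ) * Q + (χ l' : ℕ) := hr
          _ < (χ l : ℕ) * Q + Q := by omega
          _ = ((χ l : ℕ) + 1) * Q := by ring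
          _ ≤ Q * Q := Nat.mul_le_mul_right Q h1
      have hm : s.IsMate c1 c2 Δ2 χ r l l' := ⟨hn, gx, gy, Or.inl ⟨r1.symm, r2.symm⟩⟩
      have hm' := mate_symm s c1 c2 Δ2 χ hs.symm hm
      have m1 := mate_eq s c1 c2 Δ2 χ hm
      have m2 := mate_eq s c1 c2 Δ2 χ hm'
      have h0 := (gr_spec hG s (s.un l ∪ s.un l') (s.st c1 c2 Δ2 χ r l ∪ s.st c1 c2 Δ2 χ r l')
        (ch_un2 hU s hs)).2.2.1 x (Finset.mem_union_left _ hxu) y (Finset.mem_union_right _ hyu)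
      have hsub := (gr_spec hG s (s.un l ∪ s.un l') (s.st c1 c2 Δ2 χ r l ∪ s.st c1 c2 Δ2 χ r l')
        (ch_un2 hU s hs)).2.1
      refine le_trans (Nat.mul_le_mul_left 2 ?_) h0
      unfold US.cw
      refine Finset.sum_le_sum_of_subset fun v hv => ?_
      rw [Finset.mem_sdiff] at hv ⊢
      refine ⟨hv.1, fun hv3 => ?_⟩
      have hvu : v ∈ s.un l ∨ v ∈ s.un l' := by
        rw [Finset.mem_symmDiff] at hv
        rcases hv.1 with h | h
        · exact Or.inl (cx h.1)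
        · exact Or.inr (cy h.1)
      have s1 : s.st c1 c2 Δ2 χ (r + 1) l = s.st c1 c2 Δ2 χ r l ∪
          (s.gr (s.un l ∪ s.un l') (s.st c1 c2 Δ2 χ r l ∪ s.st c1 c2 Δ2 χ r l') ∩ s.un l) := by
        conv_lhs => unfold US.st
        rw [m1, if_neg (Ne.symm e)]
      have s2 : s.st c1 c2 Δ2 χ (r + 1) l' = s.st c1 c2 Δ2 χ r l' ∪
          (s.gr (s.un l ∪ s.un l') (s.st c1 c2 Δ2 χ r l ∪ s.st c1 c2 Δ2 χ r l') ∩ s.un l') := by
        conv_lhs => unfold US.st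
        rw [m2, if_neg e, Finset.union_comm (s.un l') (s.un l),
          Finset.union_comm (s.st c1 c2 Δ2 χ r l') (s.st c1 c2 Δ2 χ r l)]
      have n1 := fun hv' => not_Zf hU s hs c1 c2 Δ2 χ gx hv' hv.2 (show r + 1 ≤ Q * Q from r3)
      have n2 := fun hv' => not_Zf hU s hs c1 c2 Δ2 χ gy hv' hv.2 (show r + 1 ≤ Q * Q from r3)
      rw [s1] at n1
      rw [s2] at n2
      rw [Finset.mem_union, Finset.mem_union] at hv3
      rcases hv3 with (hv3 | hv3) | hv3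
      · exact n1 (st_un hG hU s hs c1 c2 Δ2 χ r l hv3) (Finset.mem_union_left _ hv3)
      · exact n2 (st_un hG hU s hs c1 c2 Δ2 χ r l' hv3) (Finset.mem_union_left _ hv3)
      · rcases hvu with hvu | hvu
        · exact n1 hvu (Finset.mem_union_right _ (Finset.mem_inter.mpr ⟨hv3, hvu⟩))
        · exact n2 hvu (Finset.mem_union_right _ (Finset.mem_inter.mpr ⟨hv3, hvu⟩))
    · have h1 : 2 * (s.pt (s.piZ (fun y => min (c1 y) (c2 y)) l) x +
          s.pt (s.piZ (fun y => min (c1 y) (c2 y)) l') y) ≤ 3 * s.d x y := by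
        by_contra hlt
        push Not at hlt
        apply hn
        unfold US.nbr
        rw [Finset.mem_filter]
        exact ⟨Finset.mem_univ _, Ne.symm e, gx.1, gy.1, x, hxu, y, hyu, hlt⟩
      have h2 := (hU N s k M Kp hs).2.2.2.2.2.2.1 (s.Zf c1 c2 Δ2 χ) x y hx hy
        (by rw [hl, hl']; exact e)
      rw [h2]
      refine le_trans (Nat.mul_le_mul_left 2 (Nat.add_le_add ?_ ?_)) h1
      · unfold US.pt
        refine Finset.sum_le_sum_of_subset fun v hv => ?_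
        rw [Finset.mem_sdiff] at hv ⊢
        refine ⟨hv.1, fun h => ?_⟩
        exact not_Zf hU s hs c1 c2 Δ2 χ gx (cx hv.1) hv.2 (Nat.zero_le _)
          (piZ_st s c1 c2 Δ2 χ 0 l h)
      · unfold US.pt
        refine Finset.sum_le_sum_of_subset fun v hv => ?_
        rw [Finset.mem_sdiff] at hv ⊢
        refine ⟨hv.1, fun h => ?_⟩
        exact not_Zf hU s hs c1 c2 Δ2 χ gy (cy hv.1) hv.2 (Nat.zero_le _)
          (piZ_st s c1 c2 Δ2 χ 0 l' h)

/-- the new part of the unit `l` in the round `r` -/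
noncomputable def nw (r : ℕ) (l : Fin N) : Finset (Fin N) :=
  if s.mate c1 c2 Δ2 χ r l = l then ∅ else
        (s.gr (s.un l ∪ s.un (s.mate c1 c2 Δ2 χ r l))
          (s.st c1 c2 Δ2 χ r l ∪ s.st c1 c2 Δ2 χ r (s.mate c1 c2 Δ2 χ r l))) ∩ s.un l

theorem st_succ (r : ℕ) (l : Fin N) :
    s.st c1 c2 Δ2 χ (r + 1) l = s.st c1 c2 Δ2 χ r l ∪ nw s c1 c2 Δ2 χ r l := by
  conv_lhs => unfold US.st
  rfl

include hG hU hs in
theorem nw_disj (r : ℕ) (l : Fin N) : Disjoint (s.st c1 c2 Δ2 χ r l) (nw s c1 c2 Δ2 χ r l) := by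
  unfold nw
  split_ifs
  · exact Finset.disjoint_empty_right _
  · have h := (gr_spec hG s (s.un l ∪ s.un (s.mate c1 c2 Δ2 χ r l))
      (s.st c1 c2 Δ2 χ r l ∪ s.st c1 c2 Δ2 χ r (s.mate c1 c2 Δ2 χ r l)) (ch_un2 hU s hs)).1
    rw [Finset.disjoint_left] at h ⊢
    intro v hv hv'
    exact h (Finset.mem_inter.mp hv').1 (Finset.mem_union_left _ hv)

include hG hU hs in
/-- the inequality for a pair of units -/
theorem pair_ineq (Z' : Finset (Fin N))
    (hZ : ∀ x ∈ s.V0, ∀ y ∈ s.V0, 4 * s.cw Z' x y ≤ 5 * s.d x y) (r : ℕ) (l : Fin N) :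
    ∑ v ∈ nw s c1 c2 Δ2 χ r l, s.w v + ∑ v ∈ nw s c1 c2 Δ2 χ r (s.mate c1 c2 Δ2 χ r l), s.w v ≤
      6 * (∑ v ∈ nw s c1 c2 Δ2 χ r l ∩ Z', s.w v +
        ∑ v ∈ nw s c1 c2 Δ2 χ r (s.mate c1 c2 Δ2 χ r l) ∩ Z', s.w v) := by
  have hmm := mate_mate s c1 c2 Δ2 χ hs.symm r l
  by_cases e : s.mate c1 c2 Δ2 χ r l = l
  · rw [e]
    have : nw s c1 c2 Δ2 χ r l = ∅ := by
      unfold nw
      rw [if_pos e]
    rw [this]
    simp
  · generalize hm : s.mate c1 c2 Δ2 χ r l = l' at *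
    have h1 : nw s c1 c2 Δ2 χ r l = (s.gr (s.un l ∪ s.un l')
          (s.st c1 c2 Δ2 χ r l ∪ s.st c1 c2 Δ2 χ r l')) ∩ s.un l := by
      unfold nw
      rw [hm, if_neg e]
    have h2 : nw s c1 c2 Δ2 χ r l' = (s.gr (s.un l ∪ s.un l')
          (s.st c1 c2 Δ2 χ r l ∪ s.st c1 c2 Δ2 χ r l')) ∩ s.un l' := by
      unfold nw
      rw [hmm, if_neg (Ne.symm e), Finset.union_comm (s.un l') (s.un l),
        Finset.union_comm (s.st c1 c2 Δ2 χ r l') (s.st c1 c2 Δ2 χ r l)]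
    obtain ⟨-, g2, -, g4⟩ := gr_spec hG s (s.un l ∪ s.un l')
      (s.st c1 c2 Δ2 χ r l ∪ s.st c1 c2 Δ2 χ r l') (ch_un2 hU s hs)
    generalize s.gr (s.un l ∪ s.un l') (s.st c1 c2 Δ2 χ r l ∪ s.st c1 c2 Δ2 χ r l') = Nw at *
    have hV : ∀ x ∈ s.un l ∪ s.un l', x ∈ s.V0 := by
      intro x hx
      rw [Finset.mem_union] at hx
      rcases hx with hx | hx
      · exact (mem_un.mp hx).1
      · exact (mem_un.mp hx).1
    have g5 := g4 Z' (fun x hx y hy => hZ x (hV x hx) y (hV y hy))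
    have hdis := un_disj s (Ne.symm e)
    have split : ∀ A : Finset (Fin N), A ⊆ s.un l ∪ s.un l' →
        ∑ v ∈ A, s.w v = ∑ v ∈ A ∩ s.un l, s.w v + ∑ v ∈ A ∩ s.un l', s.w v := by
      intro A hA
      rw [← Finset.sum_union]
      · congr 1
        rw [← Finset.inter_union_distrib_left]
        exact (Finset.inter_eq_left.mpr hA).symm
      · exact Finset.disjoint_of_subset_left Finset.inter_subset_right
          (Finset.disjoint_of_subset_right Finset.inter_subset_right hdis)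
    rw [split Nw g2, split (Nw ∩ Z') (Finset.inter_subset_left.trans g2)] at g5
    rw [h1, h2, Finset.inter_right_comm Nw (s.un l) Z', Finset.inter_right_comm Nw (s.un l') Z']
    exact g5

include hG hU hs in
theorem claim (Z' : Finset (Fin N))
    (hZ : ∀ x ∈ s.V0, ∀ y ∈ s.V0, 4 * s.cw Z' x y ≤ 5 * s.d x y) (G : Finset (Fin N))
    (hGd : ∀ l, l ∈ G ↔ s.good c1 c2 Δ2 χ l) (r : ℕ) :
    ∑ l ∈ G, ∑ v ∈ s.st c1 c2 Δ2 χ r l \ s.piZ (fun y => min (c1 y) (c2 y)) l, s.w v ≤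
      6 * ∑ l ∈ G, ∑ v ∈ (s.st c1 c2 Δ2 χ r l \ s.piZ (fun y => min (c1 y) (c2 y)) l) ∩ Z',
        s.w v := by
  induction r with
  | zero =>
    rw [Finset.mul_sum]
    refine Finset.sum_le_sum fun l _ => ?_
    obtain ⟨g1, g2, -, g4⟩ := gr_spec hG s (s.un l) (s.piZ (fun y => min (c1 y) (c2 y)) l)
      (fun x hx => ch_un hU s hs hx)
    have h1 : s.st c1 c2 Δ2 χ 0 l \ s.piZ (fun y => min (c1 y) (c2 y)) l =
        s.gr (s.un l) (s.piZ (fun y => min (c1 y) (c2 y)) l) := by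
      conv_lhs => unfold US.st
      rw [Finset.union_sdiff_left]
      exact Finset.sdiff_eq_self_of_disjoint g1
    rw [h1]
    exact g4 Z' (fun x hx y hy => hZ x (mem_un.mp hx).1 y (mem_un.mp hy).1)
  | succ r ih =>
    have h1 : ∀ l, s.st c1 c2 Δ2 χ (r + 1) l \ s.piZ (fun y => min (c1 y) (c2 y)) l =
        (s.st c1 c2 Δ2 χ r l \ s.piZ (fun y => min (c1 y) (c2 y)) l) ∪ nw s c1 c2 Δ2 χ r l := by
      intro l
      rw [st_succ, Finset.union_sdiff_distrib]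
      congr 1
      refine Finset.sdiff_eq_self_of_disjoint ?_
      exact (Finset.disjoint_of_subset_left (piZ_st s c1 c2 Δ2 χ r l)
        (nw_disj hG hU s hs c1 c2 Δ2 χ r l)).symm
    have h2 : ∀ l, Disjoint (s.st c1 c2 Δ2 χ r l \ s.piZ (fun y => min (c1 y) (c2 y)) l)
        (nw s c1 c2 Δ2 χ r l) := fun l =>
      Finset.disjoint_of_subset_left Finset.sdiff_subset (nw_disj hG hU s hs c1 c2 Δ2 χ r l)
    have h3 : ∑ l ∈ G, ∑ v ∈ nw s c1 c2 Δ2 χ r l, s.w v ≤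
        6 * ∑ l ∈ G, ∑ v ∈ nw s c1 c2 Δ2 χ r l ∩ Z', s.w v := by
      have inv : ∀ f : Fin N → ℕ, ∑ l ∈ G, f (s.mate c1 c2 Δ2 χ r l) = ∑ l ∈ G, f l := by
        intro f
        refine Finset.sum_nbij' (fun l => s.mate c1 c2 Δ2 χ r l) (fun l => s.mate c1 c2 Δ2 χ r l)
          ?_ ?_ ?_ ?_ ?_
        · intro l hl
          exact (hGd _).mpr (mate_good s c1 c2 Δ2 χ r l ((hGd l).mp hl))
        · intro l hl
          exact (hGd _).mpr (mate_good s c1 c2 Δ2 χ r l ((hGd l).mp hl))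
        · intro l _
          exact mate_mate s c1 c2 Δ2 χ hs.symm r l
        · intro l _
          exact mate_mate s c1 c2 Δ2 χ hs.symm r l
        · intro l _
          rfl
      have e1 := inv (fun l => ∑ v ∈ nw s c1 c2 Δ2 χ r l, s.w v)
      have e2 := inv (fun l => ∑ v ∈ nw s c1 c2 Δ2 χ r l ∩ Z', s.w v)
      have e3 := Finset.sum_le_sum fun l (_ : l ∈ G) =>
        pair_ineq hG hU s hs c1 c2 Δ2 χ Z' hZ r l
      rw [Finset.sum_add_distrib, ← Finset.mul_sum, Finset.sum_add_distrib, e1, e2] at e3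
      omega
    have h4 : ∀ l, ∑ v ∈ s.st c1 c2 Δ2 χ (r + 1) l \ s.piZ (fun y => min (c1 y) (c2 y)) l, s.w v =
        ∑ v ∈ s.st c1 c2 Δ2 χ r l \ s.piZ (fun y => min (c1 y) (c2 y)) l, s.w v +
          ∑ v ∈ nw s c1 c2 Δ2 χ r l, s.w v := by
      intro l
      rw [h1, Finset.sum_union (h2 l)]
    have h5 : ∀ l, ∑ v ∈ (s.st c1 c2 Δ2 χ (r + 1) l \ s.piZ (fun y => min (c1 y) (c2 y)) l) ∩ Z',
        s.w v =
        ∑ v ∈ (s.st c1 c2 Δ2 χ r l \ s.piZ (fun y => min (c1 y) (c2 y)) l) ∩ Z', s.w v +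
          ∑ v ∈ nw s c1 c2 Δ2 χ r l ∩ Z', s.w v := by
      intro l
      rw [h1, Finset.union_inter_distrib_right, Finset.sum_union]
      exact Finset.disjoint_of_subset_left Finset.inter_subset_left
          (Finset.disjoint_of_subset_right Finset.inter_subset_left (h2 l))
    rw [Finset.sum_congr rfl fun l _ => h4 l, Finset.sum_congr rfl fun l _ => h5 l,
      Finset.sum_add_distrib, Finset.sum_add_distrib]
    omega

include hG hU hs in
theorem part2 (Z' : Finset (Fin N))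
    (hZ : ∀ x ∈ s.V0, ∀ y ∈ s.V0, 4 * s.cw Z' x y ≤ 5 * s.d x y) :
    ∑ v ∈ s.Zf c1 c2 Δ2 χ, s.w v ≤
      ∑ l ∈ univ.filter (fun l => ¬ s.anch (fun y => min (c1 y) (c2 y)) l),
        ∑ v ∈ s.piZ (fun y => min (c1 y) (c2 y)) l, s.w v + 6 * ∑ v ∈ Z', s.w v := by
  obtain ⟨G, hGd⟩ : ∃ G : Finset (Fin N), ∀ l, l ∈ G ↔ s.good c1 c2 Δ2 χ l :=
    ⟨univ.filter fun l => s.good c1 c2 Δ2 χ l, fun l => by simp⟩
  have hVA : ∀ g : Fin N → ℕ, ∑ v ∈ s.VA G, g v = ∑ l ∈ G, ∑ v ∈ s.un l, g v :=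
    (hU N s k M Kp hs).2.2.2.2.2.2.2 G
  have hXX : s.XX c1 c2 Δ2 χ = s.VA G := by
    ext x
    unfold US.XX US.VA
    rw [Finset.mem_filter, Finset.mem_filter, hGd]
  have h1 : ∑ v ∈ s.Zf c1 c2 Δ2 χ, s.w v = ∑ l ∈ G, ∑ v ∈ s.st c1 c2 Δ2 χ (Q * Q) l, s.w v := by
    unfold US.Zf
    rw [hXX, Finset.sum_filter, hVA]
    refine Finset.sum_congr rfl fun l _ => ?_
    rw [← Finset.sum_filter]
    refine Finset.sum_congr ?_ fun _ _ => rfl
    ext v
    rw [Finset.mem_filter]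
    constructor
    · rintro ⟨hv, hv'⟩
      rwa [(mem_un.mp hv).2] at hv'
    · intro hv
      have hv' := st_un hG hU s hs c1 c2 Δ2 χ _ l hv
      refine ⟨hv', ?_⟩
      rwa [(mem_un.mp hv').2]
  have h2 : ∀ l, ∑ v ∈ s.st c1 c2 Δ2 χ (Q * Q) l, s.w v =
      ∑ v ∈ s.st c1 c2 Δ2 χ (Q * Q) l \ s.piZ (fun y => min (c1 y) (c2 y)) l, s.w v +
        ∑ v ∈ s.piZ (fun y => min (c1 y) (c2 y)) l, s.w v := by
    intro l
    exact (Finset.sum_sdiff (piZ_st s c1 c2 Δ2 χ (Q * Q) l)).symm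
  rw [h1, Finset.sum_congr rfl fun l _ => h2 l, Finset.sum_add_distrib, add_comm]
  refine Nat.add_le_add ?_ ?_
  · refine Finset.sum_le_sum_of_subset fun l hl => ?_
    rw [Finset.mem_filter]
    exact ⟨Finset.mem_univ _, ((hGd l).mp hl).1.2.1⟩
  · refine (claim hG hU s hs c1 c2 Δ2 χ Z' hZ G hGd (Q * Q)).trans (Nat.mul_le_mul_left 6 ?_)
    calc ∑ l ∈ G, ∑ v ∈ (s.st c1 c2 Δ2 χ (Q * Q) l \
          s.piZ (fun y => min (c1 y) (c2 y)) l) ∩ Z', s.w v
        ≤ ∑ l ∈ G, ∑ v ∈ s.un l, (if v ∈ Z' then s.w v else 0) := by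
          refine Finset.sum_le_sum fun l _ => ?_
          rw [← Finset.sum_filter]
          refine Finset.sum_le_sum_of_subset fun v hv => ?_
          rw [Finset.mem_inter, Finset.mem_sdiff] at hv
          rw [Finset.mem_filter]
          exact ⟨st_un hG hU s hs c1 c2 Δ2 χ _ l hv.1.1, hv.2⟩
      _ = ∑ v ∈ s.VA G, (if v ∈ Z' then s.w v else 0) := (hVA _).symm
      _ ≤ ∑ v ∈ Z', s.w v := by
          rw [← Finset.sum_filter]
          refine Finset.sum_le_sum_of_subset fun v hv => ?_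
          exact (Finset.mem_filter.mp hv).2

end main

theorem t_ST3 : S_GRD → S_USB → S_ST3 := by
  intro hG hU N s k M Kp hs c1 c2 Δ2 Q χ
  exact ⟨part1 hG hU s hs c1 c2 Δ2 χ, part2 hG hU s hs c1 c2 Δ2 χ⟩

end Pool.Agent.H79.T.ST3
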