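import Pool.Agent.H699.T.Base

/-!
# Basics of shortest closed tours
-/

set_option autoImplicit false

namespace Pool.Agent.H921.T.TSPBAS

open Finset Classical Pool.Agent.H699.T

variable {α : Type} {d : α → α → ℝ}

lemma met_nonneg (h : IsMet d) (x y : α) : 0 ≤ d x y := by
  have h1 := h.tri x y x
  rw [h.self, h.symm y x] at h1
  linarith

lemma walk_nonneg (h : IsMet d) : ∀ l : List α, 0 ≤ walk d l
  | [] => by simp [walk]
  | [_] => by simp [walk]
  | a :: b :: l => by
      have h1 := walk_nonneg h (b :: l)
      have h2 := met_nonneg h a b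
      simp only [walk]
      linarith

lemma cyc_nonneg (h : IsMet d) : ∀ l : List α, 0 ≤ cyc d l
  | [] => by simp [cyc]
  | a :: l => by
      simp only [cyc]
      exact walk_nonneg h _

lemma walk_append (a : α) (l' : List α) : ∀ l : List α,
    walk d (l ++ a :: l') = walk d (l ++ [a]) + walk d (a :: l')
  | [] => by simp [walk]
  | [b] => by simp [walk]
  | b :: c :: t => by
      have h1 := walk_append a l' (c :: t)
      simp only [List.cons_append, walk] at h1 ⊢
      rw [h1]
      ring

lemma cyc_comm (l l' : List α) : cyc d (l ++ l') = cyc d (l' ++ l) := by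
  cases l with
  | nil => simp
  | cons a s =>
    cases l' with
    | nil => simp
    | cons b t =>
      have e1 : cyc d ((a :: s) ++ (b :: t)) = walk d ((a :: s) ++ b :: (t ++ [a])) := by
        simp [cyc]
      have e2 : cyc d ((b :: t) ++ (a :: s)) = walk d ((b :: t) ++ a :: (s ++ [b])) := by
        simp [cyc]
      rw [e1, e2, walk_append b (t ++ [a]) (a :: s), walk_append a (s ++ [b]) (b :: t)]
      simp only [List.cons_append]
      ring

lemma walk_last (h : IsMet d) (a b : α) : ∀ l : List α,
    walk d (l ++ [b]) ≤ walk d (l ++ [a]) + d a b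
  | [] => by
      have := met_nonneg h a b
      simpa [walk] using this
  | [c] => by
      have := h.tri c a b
      simpa [walk] using this
  | c :: e :: t => by
      have h1 := walk_last h a b (e :: t)
      simp only [List.cons_append, walk] at h1 ⊢
      linarith

lemma cyc_cons_le (h : IsMet d) (a : α) (m : List α) : cyc d m ≤ cyc d (a :: m) := by
  cases m with
  | nil =>
    simp only [cyc, List.nil_append, walk]
    have := met_nonneg h a a
    linarith
  | cons b t =>
    have h1 := walk_last h a b (b :: t)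
    simp only [cyc, List.cons_append, walk] at h1 ⊢
    linarith

lemma cyc_remove_le (h : IsMet d) (a : α) (l m : List α) :
    cyc d (l ++ m) ≤ cyc d (l ++ a :: m) := by
  rw [cyc_comm l m, cyc_comm l (a :: m)]
  exact cyc_cons_le h a (m ++ l)

lemma cyc_sublist_aux (h : IsMet d) {l' l : List α} (hs : List.Sublist l' l) :
    ∀ p : List α, cyc d (p ++ l') ≤ cyc d (p ++ l) := by
  induction hs with
  | slnil => intro p; exact le_refl _
  | cons a _ ih =>
    intro p
    exact (ih p).trans (cyc_remove_le h a p _)
  | cons_cons a _ ih =>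
    intro p
    have := ih (p ++ [a])
    simpa using this

lemma cyc_sublist (h : IsMet d) {l' l : List α} (hs : List.Sublist l' l) :
    cyc d l' ≤ cyc d l := by
  have := cyc_sublist_aux h hs []
  simpa using this

lemma tsp_bdd (h : IsMet d) (S : Finset α) :
    BddBelow {c : ℝ | ∃ l : List α, (∀ x ∈ S, x ∈ l) ∧ c = cyc d l} := by
  refine ⟨0, ?_⟩
  rintro c ⟨l, -, rfl⟩
  exact cyc_nonneg h l

theorem t_TSPLE : S_TSPLE := by
  intro α d h S l hl
  exact csInf_le (tsp_bdd h S) ⟨l, hl, rfl⟩

theorem t_TSPATT : S_TSPATT := by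
  intro α d h S
  have hne : (S.toList.permutations.toFinset).Nonempty := by
    refine ⟨S.toList, ?_⟩
    simp
  obtain ⟨l0, h0, hmin⟩ := Finset.exists_min_image _ (fun l => cyc d l) hne
  have hperm0 : List.Perm l0 S.toList := by
    simpa using h0
  have hnd0 : l0.Nodup := (hperm0.nodup_iff).2 S.nodup_toList
  have hfs0 : l0.toFinset = S := by
    ext x
    rw [List.mem_toFinset, hperm0.mem_iff, Finset.mem_toList]
  refine ⟨l0, hnd0, hfs0, ?_⟩
  apply le_antisymm
  · refine le_csInf ⟨_, S.toList, fun x hx => by simpa using hx, rfl⟩ ?_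
    rintro c ⟨l, hl, rfl⟩
    have hsub : List.Sublist (l.filter (fun x => decide (x ∈ S))).dedup l :=
      (List.dedup_sublist _).trans List.filter_sublist
    refine le_trans ?_ (cyc_sublist h hsub)
    apply hmin
    have hp : List.Perm (l.filter (fun x => decide (x ∈ S))).dedup S.toList := by
      rw [List.perm_ext_iff_of_nodup (List.nodup_dedup _) S.nodup_toList]
      intro x
      rw [List.mem_dedup, List.mem_filter, Finset.mem_toList]
      constructor
      · rintro ⟨-, h2⟩
        simpa using h2
      · intro hx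
        exact ⟨hl x hx, by simpa using hx⟩
    simpa using hp
  · apply t_TSPLE α d h S l0
    intro x hx
    rw [← hfs0, List.mem_toFinset] at hx
    exact hx

theorem t_TSPUN : S_TSPUN := by
  intro α d h S S' hne
  obtain ⟨x, hx⟩ := hne
  rw [Finset.mem_inter] at hx
  obtain ⟨l1, -, hf1, hc1⟩ := t_TSPATT α d h S
  obtain ⟨l2, -, hf2, hc2⟩ := t_TSPATT α d h S'
  have hx1 : x ∈ l1 := by rw [← List.mem_toFinset, hf1]; exact hx.1
  have hx2 : x ∈ l2 := by rw [← List.mem_toFinset, hf2]; exact hx.2
  obtain ⟨s1, t1, e1⟩ := List.append_of_mem hx1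
  obtain ⟨s2, t2, e2⟩ := List.append_of_mem hx2
  have hm1 : ∀ y, y ∈ S → y = x ∨ y ∈ t1 ++ s1 := by
    intro y hy
    rw [← hf1, List.mem_toFinset, e1] at hy
    simp only [List.mem_append, List.mem_cons] at hy ⊢
    tauto
  have hm2 : ∀ y, y ∈ S' → y = x ∨ y ∈ t2 ++ s2 := by
    intro y hy
    rw [← hf2, List.mem_toFinset, e2] at hy
    simp only [List.mem_append, List.mem_cons] at hy ⊢
    tauto
  have c1 : cyc d (x :: (t1 ++ s1)) = tsp d S := by
    rw [← hc1, e1, cyc_comm s1 (x :: t1)]
    rfl
  have c2 : cyc d (x :: (t2 ++ s2)) = tsp d S' := by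
    rw [← hc2, e2, cyc_comm s2 (x :: t2)]
    rfl
  have key : cyc d (x :: ((t1 ++ s1) ++ x :: (t2 ++ s2))) = tsp d S + tsp d S' := by
    rw [← c1, ← c2]
    have := walk_append (d := d) x ((t2 ++ s2) ++ [x]) (x :: (t1 ++ s1))
    simp only [cyc]
    simp only [List.cons_append, List.append_assoc] at this ⊢
    exact this
  rw [← key]
  apply t_TSPLE α d h
  intro y hy
  rw [Finset.mem_union] at hy
  simp only [List.mem_append, List.mem_cons]
  rcases hy with hy | hy
  · rcases hm1 y hy with h1 | h1
    · exact Or.inl h1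
    · rw [List.mem_append] at h1
      exact Or.inr (Or.inl h1)
  · rcases hm2 y hy with h1 | h1
    · exact Or.inl h1
    · rw [List.mem_append] at h1
      exact Or.inr (Or.inr (Or.inr h1))

end Pool.Agent.H921.T.TSPBAS
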